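import Pool.Agent.Y330.F.A3

set_option autoImplicit false

open Filter Topology Set Metric

namespace Pool.Agent.Y330.E

open Pool.Agent.H789R2.AN Pool.Agent.Y330.G Pool.Agent.Y330.F

variable {X : Type*} [MetricSpace X]

/-- **Plane data**: a plane, invariant under `a^N` and accumulated by elements of the group
generated by `a` and `a'`, whose vertical lines are leaves of the intersection of the unstable
foliation of `a` and the stable foliation of `a'`, and whose horizontal axis lies in a stable leaf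
of `a`. -/
structure PD0 (a a' : X ≃ₜ X) (ψ : ℝ → ℝ → X) (N : ℕ) (τ : ℝ) : Prop where
  cont : Continuous fun p : ℝ × ℝ => ψ p.1 p.2
  tau_pos : 0 < τ
  N_pos : 1 ≤ N
  shift : ∀ t s, a^[N] (ψ t s) = ψ (t + τ) s
  wall : ∀ M : ℕ, ∀ ε > 0, ∃ m ≥ M, ∃ m' ≥ M, ∃ τ' : ℝ, |τ'| ≤ ε ∧
    ∀ t s, a^[m] (a'^[m'] (ψ t s)) = ψ (t + τ') s
  uwV : ∀ B : ℝ, ∀ ε > 0, ∃ n₀ : ℕ, ∀ n ≥ n₀, ∀ t s, |t| ≤ B → |s| ≤ B →
    dist (a.symm^[n] (ψ t s)) (a.symm^[n] (ψ t 0)) ≤ ε
  uwH : ∀ B : ℝ, ∀ ε > 0, ∃ n₀ : ℕ, ∀ n ≥ n₀, ∀ t t', |t| ≤ B → |t'| ≤ B →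
    dist (a^[n] (ψ t 0)) (a^[n] (ψ t' 0)) ≤ ε
  inj : ∀ t s s', ψ t s = ψ t s' → s = s'
  chart : ∀ B : ℝ, ∀ η > 0, ∃ ε > 0, ∀ t s y, |t| ≤ B → |s| ≤ B →
    SR a.symm ε (ψ t s) y → SR a' ε (ψ t s) y → ∃ s', |s' - s| ≤ η ∧ y = ψ t s'

namespace PD0

variable {a a' : X ≃ₜ X} {ψ : ℝ → ℝ → X} {N : ℕ} {τ : ℝ}

theorem srV (P : PD0 a a' ψ N τ) (B : ℝ) {ε : ℝ} (hε : 0 < ε) : ∃ δ > 0, ∀ t s s', |t| ≤ B →
    |s| ≤ B → |s'| ≤ B → |s - s'| ≤ δ → SR a.symm ε (ψ t s) (ψ t s') := by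
  have hS : IsCompact (Icc (-B) B ×ˢ Icc (-B) B : Set (ℝ × ℝ)) := isCompact_Icc.prod isCompact_Icc
  obtain ⟨δ, hδ, h⟩ := usr (g := a.symm) P.cont hS (fun p q => p.1 = q.1) (by
    intro ε hε
    obtain ⟨n₀, hn⟩ := P.uwV B (ε / 2) (half_pos hε)
    refine ⟨n₀, fun n h1 p hp q hq hpq => ?_⟩
    have h2 := hn n h1 p.1 p.2 (abs_le.mpr hp.1) (abs_le.mpr hp.2)
    have h3 := hn n h1 q.1 q.2 (abs_le.mpr hq.1) (abs_le.mpr hq.2)
    have hpq' : p.1 = q.1 := hpq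
    rw [← hpq'] at h3 ⊢
    rw [dist_comm] at h3
    have := dist_triangle (a.symm^[n] (ψ p.1 p.2)) (a.symm^[n] (ψ p.1 0)) (a.symm^[n] (ψ p.1 q.2))
    linarith) ε hε
  refine ⟨δ, hδ, fun t s s' ht hs hs' hd => ?_⟩
  refine h (t, s) ⟨abs_le.mp ht, abs_le.mp hs⟩ (t, s') ⟨abs_le.mp ht, abs_le.mp hs'⟩ rfl ?_
  rw [Prod.dist_eq]
  simp only [dist_self]
  rw [Real.dist_eq]
  exact max_le hδ.le hd

theorem srH (P : PD0 a a' ψ N τ) (B : ℝ) {ε : ℝ} (hε : 0 < ε) : ∃ δ > 0, ∀ t t', |t| ≤ B →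
    |t'| ≤ B → |t - t'| ≤ δ → SR a ε (ψ t 0) (ψ t' 0) := by
  have hS : IsCompact (Icc (-B) B : Set ℝ) := isCompact_Icc
  have hc : Continuous fun t : ℝ => ψ t 0 := P.cont.comp (by fun_prop : Continuous fun t : ℝ => (t, (0:ℝ)))
  obtain ⟨δ, hδ, h⟩ := usr (g := a) hc hS (fun _ _ => True) (by
    intro ε hε
    obtain ⟨n₀, hn⟩ := P.uwH B ε hε
    exact ⟨n₀, fun n h1 p hp q hq _ => hn n h1 p q (abs_le.mpr hp) (abs_le.mpr hq)⟩) ε hε
  exact ⟨δ, hδ, fun t t' ht ht' hd => h t (abs_le.mp ht) t' (abs_le.mp ht') trivial hd⟩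

/-- uniform continuity on boxes -/
theorem ucb (P : PD0 a a' ψ N τ) (B : ℝ) {ε : ℝ} (hε : 0 < ε) : ∃ δ > 0, ∀ t s t' s', |t| ≤ B →
    |s| ≤ B → |t'| ≤ B → |s'| ≤ B → |t - t'| ≤ δ → |s - s'| ≤ δ → dist (ψ t s) (ψ t' s') < ε := by
  have hS : IsCompact (Icc (-B) B ×ˢ Icc (-B) B : Set (ℝ × ℝ)) := isCompact_Icc.prod isCompact_Icc
  obtain ⟨δ, hδ, h⟩ := Metric.uniformContinuousOn_iff.mp
    (hS.uniformContinuousOn_of_continuous P.cont.continuousOn) ε hε
  refine ⟨δ / 2, half_pos hδ, fun t s t' s' ht hs ht' hs' hd hd' => ?_⟩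
  refine h (t, s) ⟨abs_le.mp ht, abs_le.mp hs⟩ (t', s') ⟨abs_le.mp ht', abs_le.mp hs'⟩ ?_
  rw [Prod.dist_eq]
  simp only [Real.dist_eq]
  exact max_lt (by linarith) (by linarith)

/-- The vertical lines are in the unstable leaves, uniformly. -/
theorem uwVp (P : PD0 a a' ψ N τ) {ι : Type*} {B : ℝ} (t : ℝ) (ht : |t| ≤ B) (s s' : ι → ℝ)
    (hs : ∀ i, |s i| ≤ B) (hs' : ∀ i, |s' i| ≤ B) :
    UW a.symm (fun i => ψ t (s i)) (fun i => ψ t (s' i)) := by
  intro ε hε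
  obtain ⟨n₀, hn⟩ := P.uwV B (ε / 2) (half_pos hε)
  refine ⟨n₀, fun n h1 i => ?_⟩
  have h2 := hn n h1 t (s i) ht (hs i)
  have h3 := hn n h1 t (s' i) ht (hs' i)
  rw [dist_comm] at h3
  have := dist_triangle (a.symm^[n] (ψ t (s i))) (a.symm^[n] (ψ t 0)) (a.symm^[n] (ψ t (s' i)))
  linarith

end PD0

/-- **Joint integrability**: the stable holonomy between vertical lines of the plane preserves the
plane. -/
theorem holo1 [CompactSpace X] {a a' : X ≃ₜ X} {ψ : ℝ → ℝ → X} {N : ℕ} {τ ε₀ : ℝ}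
    (P : PD0 a a' ψ N τ) (hε₀ : 0 < ε₀) (hc : ∀ x, a' (a x) = a (a' x))
    (h1 : Ctr a ε₀) (h2 : Ctr a.symm ε₀) (h3 : Ctr a' ε₀) (h4 : Ctr a'.symm ε₀)
    (hl : Lpr a) (hl' : Lpr a') {B η : ℝ} (hη : 0 < η) :
    ∃ ε₁ > 0, ∀ ε > 0, ε ≤ ε₁ → ∃ δ > 0, δ ≤ 1 ∧ ∀ t s u z, |t| ≤ B → |s| ≤ B → |u| ≤ δ →
      SR a ε (ψ t s) z → SR a.symm ε (ψ (t + u) s) z → ∃ s', |s' - s| ≤ η ∧ z = ψ (t + u) s' := by
  obtain ⟨ε₂, hε₂, hchart⟩ := P.chart (B + 2) η hη
  obtain ⟨εj, hεj, hεj', hjoint⟩ := joint (g := a'.symm) (h := a.symm) hε₀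
    (fun x => comm_symm_left (fun x => (comm_symm_right (g := a') (φ := a)
      (fun x => (hc x).symm) x)) x) h4 h2
  set ε₃ := min ε₂ (εj / 2) with hε₃
  have hε₃0 : 0 < ε₃ := lt_min hε₂ (half_pos hεj)
  obtain ⟨δ₂, hδ₂, hbrk⟩ := brk (g := a') (h := a.symm) hε₀
    (fun x => comm_symm_left (fun x => (hc x).symm) x) h3 hl' hε₃0
  refine ⟨min (min δ₂ (εj / 2)) (ε₀ / 4), lt_min (lt_min hδ₂ (half_pos hεj)) (by linarith), ?_⟩
  intro ε hε hεle
  have e1 : ε ≤ δ₂ := hεle.trans ((min_le_left _ _).trans (min_le_left _ _))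
  have e2 : ε ≤ εj / 2 := hεle.trans ((min_le_left _ _).trans (min_le_right _ _))
  have e3 : ε ≤ ε₀ / 4 := hεle.trans (min_le_right _ _)
  have e4 : ε₃ ≤ ε₂ := min_le_left _ _
  have e5 : ε₃ ≤ εj / 2 := min_le_right _ _
  obtain ⟨δ₃, hδ₃, hbp⟩ := bpath h1 hl hε (by linarith)
  obtain ⟨δ₄, hδ₄, huc⟩ := P.ucb (B + 2) hδ₃
  obtain ⟨δ₅, hδ₅, hH⟩ := P.srH (B + 2) hε
  refine ⟨min 1 (min δ₄ δ₅), lt_min one_pos (lt_min hδ₄ hδ₅), min_le_left _ _, ?_⟩
  intro t s u z ht hs hu hz1 hz2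
  have hu1 : |u| ≤ 1 := hu.trans (min_le_left _ _)
  have hu4 : |u| ≤ δ₄ := hu.trans ((min_le_right _ _).trans (min_le_left _ _))
  have hu5 : |u| ≤ δ₅ := hu.trans ((min_le_right _ _).trans (min_le_right _ _))
  have ht2 : |t| ≤ B + 2 := by linarith
  have hs2 : |s| ≤ B + 2 := by linarith
  have htu : |t + u| ≤ B + 2 := (abs_add_le _ _).trans (by linarith)
  -- paths
  let ι := unitInterval
  have hθ : ∀ i : ι, |(i : ℝ) * s| ≤ B + 2 := fun i => by
    rw [abs_mul]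
    have h5 : |(i : ℝ)| ≤ 1 := abs_le.mpr ⟨by linarith [i.2.1], i.2.2⟩
    have : |(i : ℝ)| * |s| ≤ 1 * |s| := mul_le_mul_of_nonneg_right h5 (abs_nonneg s)
    linarith
  have hcp : ∀ c : ℝ, Continuous fun i : ι => ψ c ((i : ℝ) * s) := fun c =>
    P.cont.comp (by fun_prop : Continuous fun i : ι => (c, (i : ℝ) * s))
  have hdc : ∀ c : ℝ, |c| ≤ 1 → ∀ i : ι,
      dist (ψ (t + c) ((i : ℝ) * s)) (ψ (t + u + c) ((i : ℝ) * s)) < δ₃ := by
    intro c hc1 i
    have k1 : |t + c| ≤ B + 2 := (abs_add_le _ _).trans (by linarith)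
    have k2 : |t + u + c| ≤ B + 2 := by
      have := abs_add_le (t + u) c
      have := abs_add_le t u
      linarith
    refine huc _ _ _ _ k1 (hθ i) k2 (hθ i) ?_ ?_
    · have : t + c - (t + u + c) = -u := by ring
      rw [this, abs_neg]; exact hu4
    · rw [sub_self, abs_zero]; exact hδ₄.le
  obtain ⟨W, hWc, hW⟩ := hbp (fun i : ι => ψ (t + 0) ((i : ℝ) * s))
    (fun i : ι => ψ (t + u + 0) ((i : ℝ) * s)) (hcp _) (hcp _) (hdc 0 (by simp))
  simp only [add_zero] at hW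
  have hWz : z = W 1 := by
    have k1 := (hW 1).1
    have k2 := (hW 1).2
    simp only [Set.Icc.coe_one, one_mul] at k1 k2
    exact h1.expans ((sr_tr hz1.symm' k1).mono (by linarith))
      ((sr_tr hz2.symm' k2).mono (by linarith))
  have hW0 : W 0 = ψ (t + u) 0 := by
    have k1 := (hW 0).1
    have k2 := (hW 0).2
    simp only [Set.Icc.coe_zero, zero_mul] at k1 k2
    have k3 := hH t (t + u) ht2 htu (by
      have : t - (t + u) = -u := by ring
      rw [this, abs_neg]; exact hu5)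
    exact h1.expans ((sr_tr k1.symm' k3).mono (by linarith)) (k2.symm'.mono (by linarith))
  -- approximations
  have happ : ∀ M : ℕ, ∃ s' : ℝ, |s' - s| ≤ η ∧
      dist (W 1) (ψ (t + u) s') ≤ (1 / 2) ^ M * εj := by
    intro M
    obtain ⟨m, hm, m', hm', τ', hτ', hb⟩ := P.wall M 1 one_pos
    set b : X → X := fun x => a^[m] (a'^[m'] x) with hbdef
    have hbc : Continuous b := (a.continuous.iterate m).comp (a'.continuous.iterate m')
    have hba : ∀ x, b (a x) = a (b x) := fun x => by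
      rw [hbdef]
      show a^[m] (a'^[m'] (a x)) = a (a^[m] (a'^[m'] x))
      have k1 : a'^[m'] (a x) = a (a'^[m'] x) :=
        (comm_it (b := a) (g := a') (fun x => (hc x).symm) m' x).symm
      rw [k1]
      exact (comm_it (b := a) (g := a) (fun x => rfl) m _).symm
    have hbas : ∀ x, b (a.symm x) = a.symm (b x) := fun x => by
      have k1 := hba (a.symm x)
      rw [a.apply_symm_apply] at k1
      rw [k1, a.symm_apply_apply]
    obtain ⟨V, hVc, hV⟩ := hbp (fun i : ι => ψ (t + τ') ((i : ℝ) * s))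
      (fun i : ι => ψ (t + u + τ') ((i : ℝ) * s)) (hcp _) (hcp _) (hdc τ' hτ')
    have hVb : ∀ i, b (W i) = V i := by
      have u1 : UW a (fun i => b (W i)) (fun i => V i) := by
        have k1 : UW a (fun i : ι => W i) (fun i : ι => ψ t ((i : ℝ) * s)) :=
          UW.of_SR h1 fun i => (hW i).1.symm'.mono (by linarith)
        have k2 := k1.map hbc hba
        have k3 : (fun i : ι => b (ψ t ((i : ℝ) * s))) = fun i : ι => ψ (t + τ') ((i : ℝ) * s) := by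
          funext i; exact hb _ _
        rw [k3] at k2
        exact k2.trans (UW.of_SR h1 fun i => (hV i).1.mono (by linarith))
      have u2 : UW a.symm (fun i => b (W i)) (fun i => V i) := by
        have k1 : UW a.symm (fun i : ι => W i) (fun i : ι => ψ (t + u) ((i : ℝ) * s)) :=
          UW.of_SR h2 fun i => (hW i).2.symm'.mono (by linarith)
        have k2 := k1.map hbc hbas
        have k3 : (fun i : ι => b (ψ (t + u) ((i : ℝ) * s))) =
            fun i : ι => ψ (t + u + τ') ((i : ℝ) * s) := by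
          funext i; exact hb _ _
        rw [k3] at k2
        exact k2.trans (UW.of_SR h2 fun i => (hV i).2.mono (by linarith))
      refine path_eq hε₀ h1 (hbc.comp hWc) hVc u1 u2 (0 : ι) ?_
      have k1 := (hV 0).1
      have k2 := (hV 0).2
      simp only [Set.Icc.coe_zero, zero_mul] at k1 k2
      have k0 : b (W 0) = ψ (t + u + τ') 0 := by rw [hW0]; exact hb _ _
      rw [k0]
      have m1 : |t + τ'| ≤ B + 2 := (abs_add_le _ _).trans (by linarith)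
      have m2 : |t + u + τ'| ≤ B + 2 := by
        have := abs_add_le (t + u) τ'
        have := abs_add_le t u
        linarith
      have k3 := hH (t + τ') (t + u + τ') m1 m2 (by
        have : t + τ' - (t + u + τ') = -u := by ring
        rw [this, abs_neg]; exact hu5)
      exact h1.expans ((sr_tr k3.symm' k1).mono (by linarith)) (k2.mono (by linarith))
    have k1 := (hV 1).2
    rw [← hVb 1] at k1
    simp only [Set.Icc.coe_one, one_mul] at k1
    obtain ⟨y, hy1, hy2, hy3⟩ := hbrk _ _ (k1.mono e1)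
    have m2 : |t + u + τ'| ≤ B + 2 := by
      have := abs_add_le (t + u) τ'
      have := abs_add_le t u
      linarith
    obtain ⟨s', hs', hys⟩ := hchart (t + u + τ') s y m2 hs2 (hy3.mono e4) (hy1.mono e4)
    refine ⟨s', hs', ?_⟩
    rw [← hb (t + u) s'] at hys
    have hR : R2 a'.symm a.symm εj (b (W 1)) (b (ψ (t + u) s')) := by
      constructor
      · have : SR a'.symm ε₃ (b (W 1)) y := hy2
        rw [hys] at this
        exact this.mono (by linarith)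
      · have := sr_tr k1.symm' hy3
        rw [hys] at this
        exact this.mono (by linarith)
    have k5 := (hjoint _ _ hR m' m).1 0
    simp only [Function.iterate_zero, id_eq] at k5
    have e6 : ∀ x, a'.symm^[m'] (a.symm^[m] (b x)) = x := fun x => by
      rw [hbdef]
      show a'.symm^[m'] (a.symm^[m] (a^[m] (a'^[m'] x))) = x
      rw [iterL, iterL]
    rw [e6, e6] at k5
    have k6 : dist (b (W 1)) (b (ψ (t + u) s')) ≤ εj := hR.1 0
    have k7 : (1 / 2 : ℝ) ^ (m' + m) ≤ (1 / 2) ^ M :=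
      pow_le_pow_of_le_one (by norm_num) (by norm_num) (by omega)
    calc dist (W 1) (ψ (t + u) s') ≤ (1 / 2) ^ (m' + m) * dist (b (W 1)) (b (ψ (t + u) s')) := k5
      _ ≤ (1 / 2) ^ M * εj := mul_le_mul k7 k6 dist_nonneg (by positivity)
  -- limit
  have hcl : IsClosed ((fun s' => ψ (t + u) s') '' Icc (s - η) (s + η)) := by
    apply IsCompact.isClosed
    exact isCompact_Icc.image (P.cont.comp (by fun_prop : Continuous fun s' : ℝ => (t + u, s')))
  have hmem : W 1 ∈ closure ((fun s' => ψ (t + u) s') '' Icc (s - η) (s + η)) := by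
    rw [Metric.mem_closure_iff]
    intro ρ hρ
    obtain ⟨M, hM⟩ := pw (c := εj) (half_pos hρ)
    obtain ⟨s', hs', hd⟩ := happ M
    refine ⟨_, ⟨s', ⟨by linarith [(abs_le.mp hs').1], by linarith [(abs_le.mp hs').2]⟩, rfl⟩, ?_⟩
    show dist (W 1) (ψ (t + u) s') < ρ
    linarith
  rw [hcl.closure_eq] at hmem
  obtain ⟨s', hs', he⟩ := hmem
  refine ⟨s', abs_le.mpr ⟨by linarith [hs'.1], by linarith [hs'.2]⟩, ?_⟩
  rw [hWz]; exact he.symm

end Pool.Agent.Y330.E
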