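import Pool.Agent.Y330.E.A2

set_option autoImplicit false

open Filter Topology Set Metric

namespace Pool.Agent.Y330.E

open Pool.Agent.H789R2.AN Pool.Agent.Y330.G Pool.Agent.Y330.F

variable {X : Type*} [MetricSpace X]

/-- A closed set crossing the plane along the line `s = 1` and disjoint from the region
`0 < s < 1`. -/
structure KD0 (a : X ≃ₜ X) (ψ : ℝ → ℝ → X) (K : Set X) : Prop where
  sat : ∀ x ∈ K, ∀ y, WS a x y → y ∈ K
  mem : ∀ t, ψ t 1 ∈ K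
  nmem : ∀ t s, 0 < s → s < 1 → ψ t s ∉ K

section

variable {a a' : X ≃ₜ X} {ψ : ℝ → ℝ → X} {N : ℕ} {τ ε₀ : ℝ}

/-- The holonomy of a small horizontal displacement. -/
theorem holo3 [CompactSpace X] (P : PD0 a a' ψ N τ) (hε₀ : 0 < ε₀) (hc : ∀ x, a' (a x) = a (a' x))
    (h1 : Ctr a ε₀) (h2 : Ctr a.symm ε₀) (h3 : Ctr a' ε₀) (h4 : Ctr a'.symm ε₀)
    (hl : Lpr a) (hl' : Lpr a') (B : ℝ) {ε : ℝ} (hε : 0 < ε) :
    ∃ δ > 0, ∀ u, |u| ≤ δ → ∀ t s, |t| ≤ B → |s| ≤ B → ∃ s', |s' - s| ≤ ε ∧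
      SR a ε (ψ t s) (ψ (t + u) s') := by
  obtain ⟨ε₁, hε₁, hh⟩ := holo1 P hε₀ hc h1 h2 h3 h4 hl hl' (B := B + 1) hε
  have hε₂ : 0 < min ε₁ ε := lt_min hε₁ hε
  obtain ⟨δ₂, hδ₂, hδ₂', hho⟩ := hh (min ε₁ ε) hε₂ (min_le_left _ _)
  obtain ⟨δ₃, hδ₃, hlp⟩ := hl (min ε₁ ε) hε₂
  obtain ⟨δ₄, hδ₄, huc⟩ := P.ucb (B + 1) hδ₃
  refine ⟨min δ₂ (min δ₄ 1), lt_min hδ₂ (lt_min hδ₄ one_pos), ?_⟩
  intro u hu t s ht hs
  have hu1 : |u| ≤ δ₂ := hu.trans (min_le_left _ _)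
  have hu2 : |u| ≤ δ₄ := hu.trans ((min_le_right _ _).trans (min_le_left _ _))
  have hu3 : |u| ≤ 1 := hu.trans ((min_le_right _ _).trans (min_le_right _ _))
  obtain ⟨z, hz1, hz2⟩ := hlp (ψ t s) (ψ (t + u) s) (huc _ _ _ _ (by linarith) (by linarith)
    ((abs_add_le _ _).trans (by linarith)) (by linarith) (by
      have : t - (t + u) = -u := by ring
      rw [this, abs_neg]; exact hu2) (by rw [sub_self, abs_zero]; exact hδ₄.le))
  obtain ⟨s', hs', hz⟩ := hho t s u z (by linarith) (by linarith) hu1 hz1 hz2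
  refine ⟨s', hs', ?_⟩
  rw [← hz]
  exact hz1.mono (min_le_right _ _)

/-- Uniqueness of the vertical coordinate. -/
theorem vert_unique (P : PD0 a a' ψ N τ) (hε₀ : 0 < ε₀) (h1 : Ctr a ε₀) (B : ℝ) :
    ∃ δ > 0, ∀ t s s', |t| ≤ B → |s| ≤ B → |s'| ≤ B → |s - s'| ≤ δ →
      SR a ε₀ (ψ t s) (ψ t s') → s = s' := by
  obtain ⟨δ, hδ, h⟩ := P.srV B hε₀
  exact ⟨δ, hδ, fun t s s' ht hs hs' hd hsr =>
    P.inj t s s' (h1.expans hsr (h t s s' ht hs hs' hd))⟩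

/-- The first return holonomy of the region. -/
theorem exists_hol [CompactSpace X] (P : PD0 a a' ψ N τ) {K : Set X} (hK : KD0 a ψ K)
    (hε₀ : 0 < ε₀) (hc : ∀ x, a' (a x) = a (a' x))
    (h1 : Ctr a ε₀) (h2 : Ctr a.symm ε₀) (h3 : Ctr a' ε₀) (h4 : Ctr a'.symm ε₀)
    (hl : Lpr a) (hl' : Lpr a') : ∃ ε > 0, ε < ε₀ ∧ ∃ m : ℕ, 1 ≤ m ∧
      ∀ i : ℕ, i < m → ∃ g : unitInterval → unitInterval, Continuous g ∧ g 0 = 0 ∧ g 1 = 1 ∧
        ∀ s : unitInterval, SR a ε (ψ (i * (τ / m)) s) (ψ (i * (τ / m) + τ / m) (g s)) := by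
  have hτ := P.tau_pos
  obtain ⟨δV, hδV, hV⟩ := vert_unique P hε₀ h1 (τ + 4)
  set ε := min (min (ε₀ / 4) (δV / 4)) (1 / 4) with hε
  have hε0 : 0 < ε := lt_min (lt_min (by linarith) (by linarith)) (by norm_num)
  have hεa : ε ≤ ε₀ / 4 := (min_le_left _ _).trans (min_le_left _ _)
  have hεb : ε ≤ δV / 4 := (min_le_left _ _).trans (min_le_right _ _)
  have hεc : ε ≤ 1 / 4 := min_le_right _ _
  obtain ⟨δ, hδ, hho⟩ := holo3 P hε₀ hc h1 h2 h3 h4 hl hl' (τ + 4) hε0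
  obtain ⟨δH, hδH, hH⟩ := P.srH (τ + 4) hε0
  obtain ⟨m, hm⟩ := exists_nat_gt (max (τ / min (min δ δH) 1) 1)
  have hm0 : (0:ℝ) < m := lt_of_lt_of_le one_pos ((le_max_right _ _).trans hm.le)
  have hmin0 : 0 < min (min δ δH) 1 := lt_min (lt_min hδ hδH) one_pos
  have hu : τ / m ≤ min (min δ δH) 1 := by
    rw [div_le_iff₀ hm0]
    have : τ / min (min δ δH) 1 < m := lt_of_le_of_lt (le_max_left _ _) hm
    rw [div_lt_iff₀ hmin0] at this
    linarith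
  set u := τ / m with hudef
  have hu0 : 0 < u := div_pos hτ hm0
  have hua : |u| ≤ δ := by
    rw [abs_of_pos hu0]; exact hu.trans ((min_le_left _ _).trans (min_le_left _ _))
  have hub : |u| ≤ δH := by
    rw [abs_of_pos hu0]; exact hu.trans ((min_le_left _ _).trans (min_le_right _ _))
  have huc' : u ≤ 1 := hu.trans (min_le_right _ _)
  refine ⟨ε, hε0, by linarith, m, (by exact_mod_cast hm0), fun i hi => ?_⟩
  set t₀ : ℝ := (i : ℝ) * u with ht₀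
  have hmu : (m : ℝ) * u = τ := by rw [hudef]; field_simp
  have ht0 : 0 ≤ t₀ := by positivity
  have ht1 : t₀ ≤ τ := by
    rw [← hmu]
    apply mul_le_mul_of_nonneg_right _ hu0.le
    exact_mod_cast hi.le
  have hex : ∀ s, 0 ≤ s → s ≤ 1 → ∃ s', |s' - s| ≤ ε ∧ SR a ε (ψ t₀ s) (ψ (t₀ + u) s') :=
    fun s hs0 hs1 => hho u hua t₀ s (by rw [abs_of_nonneg ht0]; linarith)
      (by rw [abs_of_nonneg hs0]; linarith)
  choose! γ hγ1 hγ2 using hex
  have hb0 : |t₀| ≤ τ + 4 := by rw [abs_of_nonneg ht0]; linarith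
  have hbu : |t₀ + u| ≤ τ + 4 := by rw [abs_of_nonneg (by linarith)]; linarith
  have hbs : ∀ s, 0 ≤ s → s ≤ 1 → |s| ≤ τ + 4 := fun s h0 h1 => by
    rw [abs_of_nonneg h0]; linarith
  have hbz : ∀ s z, 0 ≤ s → s ≤ 1 → |z - s| ≤ ε → |z| ≤ τ + 4 := fun s z h0 h1 h => by
    have := abs_sub_abs_le_abs_sub z s
    rw [abs_of_nonneg h0] at this
    linarith
  have hrel : ∀ s, 0 ≤ s → s ≤ 1 → SR a ε (ψ t₀ s) (ψ (t₀ + u) (γ s)) := hγ2
  -- uniqueness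
  have huniq : ∀ s z, 0 ≤ s → s ≤ 1 → |z - s| ≤ ε → SR a ε (ψ t₀ s) (ψ (t₀ + u) z) → z = γ s := by
    intro s z h0 h1' hz hzr
    refine hV (t₀ + u) z (γ s) hbu (hbz s z h0 h1' hz) (hbz s _ h0 h1' (hγ1 s h0 h1')) ?_ ?_
    · have e1 : z - γ s = (z - s) - (γ s - s) := by ring
      rw [e1]
      have := abs_sub (z - s) (γ s - s)
      have := hγ1 s h0 h1'
      linarith
    · exact (sr_tr hzr.symm' (hrel s h0 h1')).mono (by linarith)
  have hinj : ∀ s s', 0 ≤ s → s ≤ 1 → 0 ≤ s' → s' ≤ 1 → γ s = γ s' → s = s' := by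
    intro s s' h0 h1' h0' h1'' he
    refine hV t₀ s s' hb0 (hbs s h0 h1') (hbs s' h0' h1'') ?_ ?_
    · have e1 : s - s' = (γ s' - s') - (γ s - s) := by rw [he]; ring
      rw [e1]
      have := abs_sub (γ s' - s') (γ s - s)
      have := hγ1 s h0 h1'
      have := hγ1 s' h0' h1''
      linarith
    · have k1 := hrel s h0 h1'
      rw [he] at k1
      exact (sr_tr k1 (hrel s' h0' h1'').symm').mono (by linarith)
  have hγ0 : γ 0 = 0 := by
    symm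
    apply huniq 0 0 le_rfl zero_le_one (by rw [sub_self, abs_zero]; exact hε0.le)
    refine hH t₀ (t₀ + u) hb0 hbu ?_
    have : t₀ - (t₀ + u) = -u := by ring
    rw [this, abs_neg]; exact hub
  -- continuity
  have hcont : Continuous fun s : unitInterval => γ s := by
    have hc2 : CompactSpace (Icc (-1:ℝ) 2) := isCompact_iff_compactSpace.mp isCompact_Icc
    have hmemI : ∀ s : unitInterval, γ s ∈ Icc (-1:ℝ) 2 := fun s => by
      have := abs_le.mp (hγ1 s s.2.1 s.2.2)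
      have h5 := s.2.1
      have h6 := s.2.2
      exact ⟨by linarith, by linarith⟩
    have := cont_of_graph (f := fun s : unitInterval => (⟨γ s, hmemI s⟩ : Icc (-1:ℝ) 2))
      (P := fun s z => |(z : ℝ) - s| ≤ ε ∧ SR a ε (ψ t₀ s) (ψ (t₀ + u) z)) (by
        refine IsClosed.inter ?_ ?_
        · exact isClosed_le (f := fun p : unitInterval × Icc (-1:ℝ) 2 => |(p.2 : ℝ) - p.1|)
            (g := fun _ => ε) (by fun_prop) continuous_const
        · exact closed_SR a ε (P.cont.comp (by fun_prop :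
            Continuous fun p : unitInterval × Icc (-1:ℝ) 2 => (t₀, (p.1 : ℝ))))
            (P.cont.comp (by fun_prop :
            Continuous fun p : unitInterval × Icc (-1:ℝ) 2 => (t₀ + u, (p.2 : ℝ)))))
      (fun s => ⟨hγ1 s s.2.1 s.2.2, hrel s s.2.1 s.2.2⟩)
      (fun s z hz => Subtype.ext (huniq s z s.2.1 s.2.2 hz.1 hz.2))
    exact continuous_subtype_val.comp this
  have hcontOn : ContinuousOn γ (Icc 0 1) := continuousOn_iff_continuous_domRestrict.mpr hcont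
  -- position with respect to `K`
  have hKu : ∀ s, 0 ≤ s → s ≤ 1 → (ψ t₀ s ∈ K ↔ ψ (t₀ + u) (γ s) ∈ K) := fun s h0 h1' =>
    ⟨fun h => hK.sat _ h _ (h1.ws ((hrel s h0 h1').mono (by linarith))),
      fun h => hK.sat _ h _ (h1.ws ((hrel s h0 h1').symm'.mono (by linarith)))⟩
  have hle : ∀ s, 0 ≤ s → s ≤ 1 → γ s ≤ 1 := by
    intro s h0 h1'
    by_contra hgt
    push Not at hgt
    have h5 : (1:ℝ) ∈ Icc (γ 0) (γ s) := ⟨by rw [hγ0]; exact zero_le_one, hgt.le⟩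
    obtain ⟨s₁, hs₁, hs₁'⟩ := intermediate_value_Icc h0
      (hcontOn.mono (Icc_subset_Icc_right h1')) h5
    have h6 : s₁ ≤ 1 := hs₁.2.trans h1'
    have h7 : s₁ ≠ 1 := by
      intro h
      have h8 : s = s₁ := le_antisymm (h1'.trans h.ge) hs₁.2
      rw [← h8] at hs₁'
      linarith
    have h9 : ψ t₀ s₁ ∈ K := by
      rw [hKu s₁ hs₁.1 h6, hs₁']
      exact hK.mem (t₀ + u)
    have h10 : s₁ ≠ 0 := by
      intro h
      rw [h, hγ0] at hs₁'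
      exact zero_ne_one hs₁'
    exact hK.nmem t₀ s₁ (lt_of_le_of_ne hs₁.1 (Ne.symm h10)) (lt_of_le_of_ne h6 h7) h9
  have hge1 : γ 1 = 1 := by
    apply le_antisymm (hle 1 zero_le_one le_rfl)
    by_contra hlt
    push Not at hlt
    have h5 := (hKu 1 zero_le_one le_rfl).mp (hK.mem t₀)
    have h6 := (abs_le.mp (hγ1 1 zero_le_one le_rfl)).1
    exact hK.nmem (t₀ + u) _ (by linarith) hlt h5
  have hge : ∀ s, 0 ≤ s → s ≤ 1 → 0 ≤ γ s := by
    intro s h0 h1'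
    by_contra hlt
    push Not at hlt
    have h5 : (0:ℝ) ∈ Icc (γ s) (γ 1) := ⟨hlt.le, by rw [hge1]; exact zero_le_one⟩
    obtain ⟨s₁, hs₁, hs₁'⟩ := intermediate_value_Icc h1'
      (hcontOn.mono (Icc_subset_Icc_left h0)) h5
    have h6 : s₁ = 0 := hinj s₁ 0 (h0.trans hs₁.1) hs₁.2 le_rfl zero_le_one (by rw [hs₁', hγ0])
    have h7 : s = 0 := le_antisymm (h6 ▸ hs₁.1) h0
    rw [h7, hγ0] at hlt
    exact lt_irrefl _ hlt
  exact ⟨fun s => ⟨γ s, hge s s.2.1 s.2.2, hle s s.2.1 s.2.2⟩,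
    Continuous.subtype_mk hcont _, Subtype.ext hγ0, Subtype.ext hge1,
    fun s => hrel s s.2.1 s.2.2⟩

end

end Pool.Agent.Y330.E
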