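import Pool.Agent.Y330.E.L1

set_option autoImplicit false

open Filter Topology Set Metric
open scoped InnerProductSpace

namespace Pool.Agent.Y330.F

open Pool.Agent.H789R2.AN Pool.Agent.Y330.G

variable {X : Type*} [MetricSpace X] {E : Type*} [NormedAddCommGroup E] [InnerProductSpace ℝ E]

theorem LF.YY_cont [CompactSpace X] {c c' : X ≃ₜ X} {e : X → E} {F : X → Submodule ℝ E}
    {D : X → E →ₗ[ℝ] E} {ε₀ C Λ : ℝ} (L : LF c c' e F D ε₀ C Λ) {x : X} {u : E} (hu : u ∈ F x)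
    (hu0 : u ≠ 0) : Continuous fun r : ℝ => YY c c' (LF.sc ε₀ C Λ) D e x u r := by
  rw [continuous_iff_continuousAt]
  intro r
  exact L.YY_tendsto tendsto_const_nhds tendsto_const_nhds tendsto_id
    (Eventually.of_forall fun _ => hu) hu hu0

/-- a nonvanishing continuous function on a connected space has a constant sign -/
theorem sign_const {ι : Type*} [TopologicalSpace ι] [PreconnectedSpace ι] {φ : ι → ℝ}
    (hφ : Continuous φ) (h0 : ∀ i, φ i ≠ 0) (i j : ι) : 0 < φ i * φ j := by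
  by_contra hcon
  push Not at hcon
  rcases lt_or_gt_of_ne (h0 i) with hi | hi
  · have hj : 0 ≤ φ j := by
      by_contra h
      push Not at h
      nlinarith
    obtain ⟨k, hk⟩ := intermediate_value_univ i j hφ ⟨hi.le, hj⟩
    exact h0 k hk
  · have hj : φ j ≤ 0 := by
      by_contra h
      push Not at h
      nlinarith
    obtain ⟨k, hk⟩ := intermediate_value_univ j i hφ ⟨hj, hi.le⟩
    exact h0 k hk

end Pool.Agent.Y330.F

namespace Pool.Agent.Y330.E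

open Pool.Agent.H789R2.AN Pool.Agent.Y330.G Pool.Agent.Y330.F

open LF (sc)

variable {X : Type*} [MetricSpace X] {E : Type*} [NormedAddCommGroup E] [InnerProductSpace ℝ E]

/-- A compact set saturated by two transverse one-dimensional foliations, with local product
structure. -/
structure SD (g h : X ≃ₜ X) (e : X → E) (Fm Fp : X → Submodule ℝ E) (Dm Dp : X → E →ₗ[ℝ] E)
    (ε₁ C₁ Λ₁ ε₂ C₂ Λ₂ : ℝ) (Z : Set X) : Prop where
  lm : LF g h.symm e Fm Dm ε₁ C₁ Λ₁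
  lp : LF g.symm h e Fp Dp ε₂ C₂ Λ₂
  cl : IsClosed Z
  inv : ∀ x, g x ∈ Z ↔ x ∈ Z
  satm : ∀ x ∈ Z, ∀ y, LW g h.symm (sc ε₁ C₁ Λ₁) x y → y ∈ Z
  satp : ∀ x ∈ Z, ∀ y, LW g.symm h (sc ε₂ C₂ Λ₂) x y → y ∈ Z
  brk : ∀ ε > 0, ∃ δ > 0, ∀ {ι : Type} [TopologicalSpace ι] (x y : ι → X), Continuous x →
    Continuous y → (∀ i, x i ∈ Z) → (∀ i, y i ∈ Z) → (∀ i, dist (x i) (y i) < δ) →
    ∃ w : ι → X, Continuous w ∧ ∀ i, w i ∈ Z ∧ R2 g h.symm ε (x i) (w i) ∧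
      R2 g.symm h ε (y i) (w i)

namespace SD

variable {g h : X ≃ₜ X} {e : X → E} {Fm Fp : X → Submodule ℝ E} {Dm Dp : X → E →ₗ[ℝ] E}
  {ε₁ C₁ Λ₁ ε₂ C₂ Λ₂ : ℝ} {Z : Set X}

/-- bracket of two points -/
theorem brk1 (H : SD g h e Fm Fp Dm Dp ε₁ C₁ Λ₁ ε₂ C₂ Λ₂ Z) {ε : ℝ} (hε : 0 < ε) :
    ∃ δ > 0, ∀ x ∈ Z, ∀ y ∈ Z, dist x y < δ → ∃ w ∈ Z, R2 g h.symm ε x w ∧
      R2 g.symm h ε y w := by
  obtain ⟨δ, hδ, hb⟩ := H.brk ε hε
  refine ⟨δ, hδ, fun x hx y hy hd => ?_⟩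
  obtain ⟨w, -, hw⟩ := hb (ι := Unit) (fun _ => x) (fun _ => y) continuous_const continuous_const
    (fun _ => hx) (fun _ => hy) (fun _ => hd)
  exact ⟨w (), hw ()⟩

theorem uniq (H : SD g h e Fm Fp Dm Dp ε₁ C₁ Λ₁ ε₂ C₂ Λ₂ Z) {x y : X}
    (h1 : R2 g h.symm ε₁ x y) (h2 : SR g.symm ε₁ x y) : x = y := H.lm.ctr.expans h1.1 h2

/-- **Order lemma**: the holonomy along `Fp` preserves the sides. -/
theorem order [CompactSpace X] [FiniteDimensional ℝ E]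
    (H : SD g h e Fm Fp Dm Dp ε₁ C₁ Λ₁ ε₂ C₂ Λ₂ Z) {ε : ℝ} (hε : 0 < ε) :
    ∃ ρ > 0, ρ ≤ ε ∧ ∀ x ∈ Z, ∀ y w, R2 g.symm h ρ x y → R2 g h.symm ρ x w → x ≠ w →
      ∀ v ∈ Fm x, ‖v‖ = 1 → ∀ u ∈ Fm y, ‖u‖ = 1 → ‖u - v‖ ≤ 1 / 2 →
      ∃ b ∈ Z, R2 g h.symm ε y b ∧ R2 g.symm h ε w b ∧
        0 < TT g Dm e x v w * TT g Dm e y u b := by
  have hε₁ := H.lm.pos
  have hε₂ := H.lp.pos
  have hsc₁ := H.lm.sc_pos
  set ε' := min (min ε (sc ε₁ C₁ Λ₁)) (min (ε₁ / 4) (ε₂ / 4)) with hε'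
  have hε'0 : 0 < ε' := lt_min (lt_min hε hsc₁) (lt_min (by linarith) (by linarith))
  have e1 : ε' ≤ ε := (min_le_left _ _).trans (min_le_left _ _)
  have e2 : ε' ≤ sc ε₁ C₁ Λ₁ := (min_le_left _ _).trans (min_le_right _ _)
  have e3 : ε' ≤ ε₁ / 4 := (min_le_right _ _).trans (min_le_left _ _)
  have e4 : ε' ≤ ε₂ / 4 := (min_le_right _ _).trans (min_le_right _ _)
  obtain ⟨δ, hδ, hbrk⟩ := H.brk ε' hε'0
  obtain ⟨ρs, hρs, hseg⟩ := H.lp.segm
  obtain ⟨δσ, hδσ, hsec⟩ := section_path H.lm.line H.lm.clF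
  set ρ := min (min ρs (min ε' (sc ε₂ C₂ Λ₂))) (min (δ / 16) (min (δσ / 16) (ε₁ / 32))) with hρ
  have hρ0 : 0 < ρ := lt_min (lt_min hρs (lt_min hε'0 H.lp.sc_pos))
    (lt_min (by linarith) (lt_min (by linarith) (by linarith)))
  have r1 : ρ ≤ ρs := (min_le_left _ _).trans (min_le_left _ _)
  have r2 : ρ ≤ ε' := (min_le_left _ _).trans ((min_le_right _ _).trans (min_le_left _ _))
  have r3 : ρ ≤ sc ε₂ C₂ Λ₂ := (min_le_left _ _).trans ((min_le_right _ _).trans (min_le_right _ _))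
  have r4 : ρ ≤ δ / 16 := (min_le_right _ _).trans (min_le_left _ _)
  have r5 : ρ ≤ δσ / 16 := (min_le_right _ _).trans ((min_le_right _ _).trans (min_le_left _ _))
  have r6 : ρ ≤ ε₁ / 32 := (min_le_right _ _).trans ((min_le_right _ _).trans (min_le_right _ _))
  refine ⟨ρ, hρ0, r2.trans e1, fun x hx y w hxy hxw hne v hv hv1 u hu hu1 huv => ?_⟩
  obtain ⟨n, hn, hn1⟩ := unit_exists (H.lp.line x)
  have hn0 := unit_ne hn1
  have hLWxy : LW g.symm h (sc ε₂ C₂ Λ₂) x y := H.lp.W_of (hxy.mono (r3.trans H.lp.sc_le))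
  have hLWxw : LW g h.symm (sc ε₁ C₁ Λ₁) x w := H.lm.W_of (hxw.mono (by linarith))
  set r := TT g.symm Dp e x n y with hr
  have hdxy : dist x y ≤ ρ := hxy.1 0
  have hdxw : dist x w ≤ ρ := hxw.1 0
  let β : unitInterval → X := fun θ => YY g.symm h (sc ε₂ C₂ Λ₂) Dp e x n ((θ : ℝ) * r)
  have hβc : Continuous β := (H.lp.YY_cont hn hn0).comp (by fun_prop)
  have hβ0 : β 0 = x := by
    show YY g.symm h (sc ε₂ C₂ Λ₂) Dp e x n (((0 : unitInterval) : ℝ) * r) = x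
    rw [Set.Icc.coe_zero, zero_mul]
    exact H.lp.YY_zero hn hn0
  have hβ1 : β 1 = y := by
    show YY g.symm h (sc ε₂ C₂ Λ₂) Dp e x n (((1 : unitInterval) : ℝ) * r) = y
    rw [Set.Icc.coe_one, one_mul]
    exact H.lp.YY_eq hn hn0 hLWxy rfl
  have hβR : ∀ θ, R2 g.symm h (8 * ρ) x (β θ) := by
    intro θ
    refine (hseg x y (hxy.mono r1) n hn hn0 ((θ : ℝ) * r) ?_).2.mono (by linarith)
    rw [abs_mul, abs_of_nonneg θ.2.1]
    have := θ.2.2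
    nlinarith [abs_nonneg r]
  have hβd : ∀ θ, dist x (β θ) ≤ 8 * ρ := fun θ => (hβR θ).1 0
  have hβZ : ∀ θ, β θ ∈ Z := fun θ => H.satp x hx _ (H.lp.YY_spec x hn hn0 _).1
  have hwZ : w ∈ Z := H.satm x hx w hLWxw
  obtain ⟨b, hbc, hb⟩ := hbrk β (fun _ => w) hβc continuous_const hβZ (fun _ => hwZ) (fun θ => by
    have := dist_triangle_left (β θ) w x
    have := hβd θ
    linarith)
  have hb0 : b 0 = w := by
    have h1 := (hb 0).2.1
    have h2 := (hb 0).2.2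
    rw [hβ0] at h1
    exact (H.uniq ((hxw.symm.trans h1).mono (by linarith)) (h2.1.mono (by linarith))).symm
  obtain ⟨σ, hσc, hσ⟩ := hsec β hβc x (fun θ => by
    have := hβd θ
    linarith) v hv hv1
  have hσ0 : σ 0 = v := by
    have h1 := (hσ 0).1
    rw [hβ0] at h1
    refine unit_eq (H.lm.line x) hv h1 hv1 (hσ 0).2.1 ?_
    have := (hσ 0).2.2
    linarith
  have hσ1 : σ 1 = u := by
    have h1 := (hσ 1).1
    rw [hβ1] at h1
    refine unit_eq (H.lm.line y) hu h1 hu1 (hσ 1).2.1 ?_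
    have h2 := (hσ 1).2.2
    have e5 : u - σ 1 = (u - v) + (v - σ 1) := by abel
    rw [e5]
    have := norm_add_le (u - v) (v - σ 1)
    linarith
  have hφc : Continuous fun θ => TT g Dm e (β θ) (σ θ) (b θ) := by
    rw [continuous_iff_continuousAt]
    intro θ
    refine H.lm.TT_tendsto (hβc.tendsto θ) (hbc.tendsto θ) (hσc.tendsto θ)
      (Eventually.of_forall fun θ => (hσ θ).1) (hσ θ).1 (unit_ne (hσ θ).2.1)
      (Eventually.of_forall fun θ => (hb θ).2.1.mono e2)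
  have hφ0 : ∀ θ, TT g Dm e (β θ) (σ θ) (b θ) ≠ 0 := by
    intro θ
    refine H.lm.TT_ne (H.lm.W_of ((hb θ).2.1.mono (by linarith))) ?_ (hσ θ).1
      (unit_ne (hσ θ).2.1)
    intro heq
    have h1 := (hb θ).2.2
    rw [← heq] at h1
    exact hne (H.uniq (hxw.mono (by linarith)) ((sr_tr (hβR θ).1 h1.symm.1).mono (by linarith)))
  have h3 := sign_const hφc hφ0 0 1
  rw [hβ0, hβ1, hb0, hσ0, hσ1] at h3
  refine ⟨b 1, (hb 1).1, ?_, (hb 1).2.2.mono e1, h3⟩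
  have h4 := (hb 1).2.1
  rw [hβ1] at h4
  exact h4.mono e1

end SD

end Pool.Agent.Y330.E
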