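import Pool.Agent.Y330.E.L2

set_option autoImplicit false

open Filter Topology Set Metric
open scoped InnerProductSpace

namespace Pool.Agent.Y330.E

open Pool.Agent.H789R2.AN Pool.Agent.Y330.G Pool.Agent.Y330.F

open LF (sc)

variable {X : Type*} [MetricSpace X] {E : Type*} [NormedAddCommGroup E] [InnerProductSpace ℝ E]

/-- directions in which the half segment of length `R` is free of `A` -/
def Gap (g h : X ≃ₜ X) (e : X → E) (Fm : X → Submodule ℝ E) (Dm : X → E →ₗ[ℝ] E) (s : ℝ)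
    (Z A : Set X) (R : ℝ) : Set (X × E) :=
  {q | q.1 ∈ A ∧ q.1 ∈ Z ∧ q.2 ∈ Fm q.1 ∧ ‖q.2‖ = 1 ∧
    ∀ r, 0 < r → r < R → YY g h.symm s Dm e q.1 q.2 r ∉ A}

/-- directions in which the half leaf is free of `A` -/
def Bd (g h : X ≃ₜ X) (e : X → E) (Fm : X → Submodule ℝ E) (Dm : X → E →ₗ[ℝ] E) (s : ℝ)
    (Z A : Set X) : Set (X × E) :=
  {q | q.1 ∈ A ∧ q.1 ∈ Z ∧ q.2 ∈ Fm q.1 ∧ ‖q.2‖ = 1 ∧
    ∀ r, 0 < r → YY g h.symm s Dm e q.1 q.2 r ∉ A}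

/-- the closed invariant set, saturated by the unstable leaves of `g` -/
structure AD (g : X ≃ₜ X) (A : Set X) : Prop where
  cl : IsClosed A
  inv : ∀ x, g x ∈ A ↔ x ∈ A
  sat : ∀ x ∈ A, ∀ y, WS g.symm x y → y ∈ A

namespace SD

variable {g h : X ≃ₜ X} {e : X → E} {Fm Fp : X → Submodule ℝ E} {Dm Dp : X → E →ₗ[ℝ] E}
  {ε₁ C₁ Λ₁ ε₂ C₂ Λ₂ : ℝ} {Z A : Set X}

theorem satA (H : SD g h e Fm Fp Dm Dp ε₁ C₁ Λ₁ ε₂ C₂ Λ₂ Z) (hA : AD g A) {x y : X} {ε : ℝ}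
    (hε : ε ≤ ε₂) (hxy : R2 g.symm h ε x y) (hx : x ∈ A) : y ∈ A :=
  hA.sat x hx y (H.lp.ctr.ws (hxy.1.mono hε))

theorem gap_mono {R R' : ℝ} (hR : R ≤ R') :
    Gap g h e Fm Dm (sc ε₁ C₁ Λ₁) Z A R' ⊆ Gap g h e Fm Dm (sc ε₁ C₁ Λ₁) Z A R :=
  fun _ hq => ⟨hq.1, hq.2.1, hq.2.2.1, hq.2.2.2.1, fun r h0 h1 => hq.2.2.2.2 r h0 (h1.trans_le hR)⟩

theorem gap_closed [CompactSpace X] [FiniteDimensional ℝ E]
    (H : SD g h e Fm Fp Dm Dp ε₁ C₁ Λ₁ ε₂ C₂ Λ₂ Z) (hA : AD g A) (R : ℝ) :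
    IsClosed (Gap g h e Fm Dm (sc ε₁ C₁ Λ₁) Z A R) := by
  apply IsSeqClosed.isClosed
  rintro qk q hqk hlim
  have hlx : Tendsto (fun k => (qk k).1) atTop (𝓝 q.1) := (continuous_fst.tendsto _).comp hlim
  have hlu : Tendsto (fun k => (qk k).2) atTop (𝓝 q.2) := (continuous_snd.tendsto _).comp hlim
  have h1 : q.1 ∈ A := hA.cl.mem_of_tendsto hlx (Eventually.of_forall fun k => (hqk k).1)
  have h2 : q.1 ∈ Z := H.cl.mem_of_tendsto hlx (Eventually.of_forall fun k => (hqk k).2.1)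
  have h3 : q.2 ∈ Fm q.1 := H.lm.clF.mem_of_tendsto (hlx.prodMk_nhds hlu)
    (Eventually.of_forall fun k => (hqk k).2.2.1)
  have h4 : ‖q.2‖ = 1 := tendsto_nhds_unique hlu.norm
    (tendsto_const_nhds.congr fun k => (hqk k).2.2.2.1.symm)
  refine ⟨h1, h2, h3, h4, fun r hr0 hrR hmem => ?_⟩
  set η := min r (R - r) / 2 with hη
  have hη0 : 0 < η := half_pos (lt_min hr0 (by linarith))
  have hη1 : η < r := by
    have : min r (R - r) ≤ r := min_le_left _ _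
    rw [hη]; linarith
  have hη2 : η < R - r := by
    have : min r (R - r) ≤ R - r := min_le_right _ _
    have : 0 < R - r := by linarith
    rw [hη]; linarith
  obtain ⟨ε, hε, hεε, hco⟩ := H.lm.coord_unif R hη0
  obtain ⟨δ, hδ, hbr⟩ := H.brk1 (ε := min ε ε₂) (lt_min hε H.lp.pos)
  have hY := H.lm.YY_tendsto hlx hlu (tendsto_const_nhds (x := r))
    (Eventually.of_forall fun k => (hqk k).2.2.1) h3 (unit_ne h4)
  obtain ⟨k, hk⟩ := (Metric.tendsto_atTop.mp hY δ hδ).imp fun k hk => hk k le_rfl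
  obtain ⟨hk1, hk2, hk3, hk4, hk5⟩ := hqk k
  have hYZ : ∀ q' : X × E, q'.1 ∈ Z → q'.2 ∈ Fm q'.1 → ‖q'.2‖ = 1 →
      YY g h.symm (sc ε₁ C₁ Λ₁) Dm e q'.1 q'.2 r ∈ Z := fun q' a1 a2 a3 =>
    H.satm _ a1 _ (H.lm.YY_spec _ a2 (unit_ne a3) r).1
  obtain ⟨w, hw, hw1, hw2⟩ := hbr _ (hYZ (qk k) hk2 hk3 hk4) _ (hYZ q h2 h3 h4) hk
  have hwA : w ∈ A := H.satA hA (min_le_right _ _) hw2 hmem
  have hw1' := hw1.mono (min_le_left ε ε₂)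
  have h5 := hco _ _ r w hk3 hk4 (by rw [abs_of_pos hr0]; exact hrR.le) hw1'
  have h6 := abs_le.mp h5
  have hLW : LW g h.symm (sc ε₁ C₁ Λ₁) (qk k).1 w :=
    H.lm.W_trans (H.lm.YY_spec _ hk3 (unit_ne hk4) r).1 (H.lm.W_of (hw1'.mono hεε))
  have h7 := H.lm.YY_eq hk3 (unit_ne hk4) hLW rfl
  refine hk5 (TT g Dm e (qk k).1 (qk k).2 w) (by linarith) (by linarith) ?_
  rw [h7]
  exact hwA

theorem bd_iff {q : X × E} : q ∈ Bd g h e Fm Dm (sc ε₁ C₁ Λ₁) Z A ↔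
    ∀ R, 0 < R → q ∈ Gap g h e Fm Dm (sc ε₁ C₁ Λ₁) Z A R := by
  constructor
  · intro hq R _
    exact ⟨hq.1, hq.2.1, hq.2.2.1, hq.2.2.2.1, fun r h0 _ => hq.2.2.2.2 r h0⟩
  · intro hq
    obtain ⟨h1, h2, h3, h4, -⟩ := hq 1 one_pos
    exact ⟨h1, h2, h3, h4, fun r h0 => (hq (r + 1) (by linarith)).2.2.2.2 r h0 (by linarith)⟩

theorem bd_closed [CompactSpace X] [FiniteDimensional ℝ E]
    (H : SD g h e Fm Fp Dm Dp ε₁ C₁ Λ₁ ε₂ C₂ Λ₂ Z) (hA : AD g A) :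
    IsClosed (Bd g h e Fm Dm (sc ε₁ C₁ Λ₁) Z A) := by
  have : Bd g h e Fm Dm (sc ε₁ C₁ Λ₁) Z A =
      ⋂ R : {R : ℝ // 0 < R}, Gap g h e Fm Dm (sc ε₁ C₁ Λ₁) Z A R := by
    ext q
    rw [mem_iInter]
    exact bd_iff.trans ⟨fun h R => h R.1 R.2, fun h R hR => h ⟨R, hR⟩⟩
  rw [this]
  exact isClosed_iInter fun R => H.gap_closed hA R

/-- one step back in time -/
theorem gap_back [CompactSpace X] [FiniteDimensional ℝ E]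
    (H : SD g h e Fm Fp Dm Dp ε₁ C₁ Λ₁ ε₂ C₂ Λ₂ Z) (hA : AD g A) {R : ℝ} {q : X × E}
    (hq : q ∈ Gap g h e Fm Dm (sc ε₁ C₁ Λ₁) Z A R) :
    ∃ u, (g.symm q.1, u) ∈ Gap g h e Fm Dm (sc ε₁ C₁ Λ₁) Z A (2 * R) := by
  obtain ⟨y, u⟩ := q
  obtain ⟨h1, h2, h3, h4, h5⟩ := hq
  simp only at h1 h2 h3 h4 h5 ⊢
  set y₁ := g.symm y with hy₁
  have hgy : g y₁ = y := g.apply_symm_apply y
  obtain ⟨w, hw, hw1⟩ := unit_exists (H.lm.line y₁)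
  have hDw : Dm y₁ w ∈ Fm y := by
    have := H.lm.map y₁ w hw
    rwa [hgy] at this
  have hDw0 : Dm y₁ w ≠ 0 := H.lm.ne_zero y₁ hw (unit_ne hw1)
  set κ := ‖Dm y₁ w‖ with hκ
  have hκ0 : 0 < κ := norm_pos_iff.mpr hDw0
  have hκ1 : κ ≤ 1 / 2 := by
    have := H.lm.contr y₁ w hw
    rw [hw1, mul_one] at this
    exact this
  have hex : ∃ u₁ ∈ Fm y₁, ‖u₁‖ = 1 ∧ Dm y₁ u₁ = κ • u := by
    have hun : ‖κ⁻¹ • Dm y₁ w‖ = 1 := by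
      rw [norm_smul, norm_inv, Real.norm_of_nonneg hκ0.le, inv_mul_cancel₀ hκ0.ne']
    rcases unit_cases (H.lm.line y) ((Fm y).smul_mem κ⁻¹ hDw) h3 hun h4 with h6 | h6
    · exact ⟨w, hw, hw1, by rw [h6, smul_smul, mul_inv_cancel₀ hκ0.ne', one_smul]⟩
    · refine ⟨-w, (Fm y₁).neg_mem hw, by rw [norm_neg]; exact hw1, ?_⟩
      rw [h6, map_neg, smul_neg, smul_smul, mul_inv_cancel₀ hκ0.ne', one_smul]
  obtain ⟨u₁, hu₁, hu₁1, hD⟩ := hex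
  refine ⟨u₁, ?_, ?_, hu₁, hu₁1, ?_⟩
  · rw [← hA.inv, hgy]; exact h1
  · rw [← H.inv, hgy]; exact h2
  · intro s hs0 hsR hmem
    simp only at hmem
    obtain ⟨h6, h7⟩ := H.lm.YY_spec y₁ hu₁ (unit_ne hu₁1) s
    set z := YY g h.symm (sc ε₁ C₁ Λ₁) Dm e y₁ u₁ s with hz
    have h8 := H.lm.TT_step h6 hu₁ (unit_ne hu₁1)
    have h9 : LW g h.symm (sc ε₁ C₁ Λ₁) (g y₁) (g z) := H.lm.W_iter' 1 h6
    rw [hgy] at h9
    rw [h7, hD, hgy, H.lm.TT_smul h9 h3 (unit_ne h4), div_eq_iff hκ0.ne'] at h8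
    have h10 := H.lm.YY_eq h3 (unit_ne h4) h9 h8
    refine h5 (s * κ) (by positivity) (by nlinarith) ?_
    rw [h10, hA.inv]
    exact hmem

theorem bd_back [CompactSpace X] [FiniteDimensional ℝ E]
    (H : SD g h e Fm Fp Dm Dp ε₁ C₁ Λ₁ ε₂ C₂ Λ₂ Z) (hA : AD g A) {q : X × E}
    (hq : q ∈ Bd g h e Fm Dm (sc ε₁ C₁ Λ₁) Z A) :
    ∃ u, (g.symm q.1, u) ∈ Bd g h e Fm Dm (sc ε₁ C₁ Λ₁) Z A := by
  have h1 : ∀ k : ℕ, ∃ u, (g.symm q.1, u) ∈ Gap g h e Fm Dm (sc ε₁ C₁ Λ₁) Z A (2 * (k + 1)) :=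
    fun k => H.gap_back hA (bd_iff.mp hq _ (by positivity))
  choose u hu using h1
  obtain ⟨v, hv, φ, hφ, hlim⟩ := (isCompact_sphere (0 : E) 1).tendsto_subseq (x := u)
    (fun k => by rw [mem_sphere_zero_iff_norm]; exact (hu k).2.2.2.1)
  refine ⟨v, bd_iff.mpr fun R _ => ?_⟩
  refine (H.gap_closed hA R).mem_of_tendsto ((tendsto_const_nhds (x := g.symm q.1)).prodMk_nhds hlim) ?_
  obtain ⟨K, hK⟩ := exists_nat_ge R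
  filter_upwards [eventually_ge_atTop K] with k hk
  refine gap_mono ?_ (hu (φ k))
  have h2 : (k : ℝ) ≤ φ k := by exact_mod_cast hφ.id_le k
  have h3 : (K : ℝ) ≤ k := by exact_mod_cast hk
  linarith

theorem bd_fwd [CompactSpace X] [FiniteDimensional ℝ E]
    (H : SD g h e Fm Fp Dm Dp ε₁ C₁ Λ₁ ε₂ C₂ Λ₂ Z) (hA : AD g A) {q : X × E}
    (hq : q ∈ Bd g h e Fm Dm (sc ε₁ C₁ Λ₁) Z A) :
    ∃ u, (g q.1, u) ∈ Bd g h e Fm Dm (sc ε₁ C₁ Λ₁) Z A := by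
  obtain ⟨y, u⟩ := q
  obtain ⟨h1, h2, h3, h4, h5⟩ := hq
  simp only at h1 h2 h3 h4 h5 ⊢
  have hD : Dm y u ∈ Fm (g y) := H.lm.map y u h3
  have hD0 : Dm y u ≠ 0 := H.lm.ne_zero y h3 (unit_ne h4)
  set κ := ‖Dm y u‖ with hκ
  have hκ0 : 0 < κ := norm_pos_iff.mpr hD0
  have hun : ‖κ⁻¹ • Dm y u‖ = 1 := by
    rw [norm_smul, norm_inv, Real.norm_of_nonneg hκ0.le, inv_mul_cancel₀ hκ0.ne']
  have hmem' : κ⁻¹ • Dm y u ∈ Fm (g y) := (Fm (g y)).smul_mem _ hD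
  refine ⟨κ⁻¹ • Dm y u, (hA.inv y).mpr h1, (H.inv y).mpr h2, hmem', hun, ?_⟩
  intro s hs0 hmem
  simp only at hmem
  obtain ⟨h6, h7⟩ := H.lm.YY_spec (g y) hmem' (unit_ne hun) s
  set z' := YY g h.symm (sc ε₁ C₁ Λ₁) Dm e (g y) (κ⁻¹ • Dm y u) s with hz
  set z := g.symm z' with hzdef
  have hgz : g z = z' := g.apply_symm_apply z'
  have h8 : LW g h.symm (sc ε₁ C₁ Λ₁) y z := by
    apply H.lm.W_iter 1
    rw [Function.iterate_one, hgz]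
    exact h6
  have h9 := H.lm.TT_step h8 h3 (unit_ne h4)
  rw [hgz] at h9
  rw [H.lm.TT_smul h6 hD hD0, h9] at h7
  have h10 : TT g Dm e y u z = s * κ⁻¹ := by
    rw [← h7]
    field_simp
  have h11 := H.lm.YY_eq h3 (unit_ne h4) h8 h10
  refine h5 (s * κ⁻¹) (by positivity) ?_
  rw [h11, ← hA.inv, hgz]
  exact hmem

theorem bd_iter [CompactSpace X] [FiniteDimensional ℝ E]
    (H : SD g h e Fm Fp Dm Dp ε₁ C₁ Λ₁ ε₂ C₂ Λ₂ Z) (hA : AD g A) {q : X × E}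
    (hq : q ∈ Bd g h e Fm Dm (sc ε₁ C₁ Λ₁) Z A) (n : ℕ) :
    (∃ u, (g^[n] q.1, u) ∈ Bd g h e Fm Dm (sc ε₁ C₁ Λ₁) Z A) ∧
    ∃ u, (g.symm^[n] q.1, u) ∈ Bd g h e Fm Dm (sc ε₁ C₁ Λ₁) Z A := by
  induction n with
  | zero => exact ⟨⟨q.2, hq⟩, ⟨q.2, hq⟩⟩
  | succ n ih =>
    obtain ⟨⟨u, hu⟩, ⟨v, hv⟩⟩ := ih
    refine ⟨?_, ?_⟩
    · obtain ⟨w, hw⟩ := H.bd_fwd hA hu
      exact ⟨w, by rw [Function.iterate_succ_apply']; exact hw⟩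
    · obtain ⟨w, hw⟩ := H.bd_back hA hv
      exact ⟨w, by rw [Function.iterate_succ_apply']; exact hw⟩

/-- existence of free half leaves -/
theorem bd_nonempty [CompactSpace X] [FiniteDimensional ℝ E]
    (H : SD g h e Fm Fp Dm Dp ε₁ C₁ Λ₁ ε₂ C₂ Λ₂ Z) (hA : AD g A) {p : X} (hpA : p ∈ A)
    (hpZ : p ∈ Z) {u : E} (hu : u ∈ Fm p) (hu0 : u ≠ 0) {r₀ : ℝ} (hr₀ : 0 < r₀)
    (hno : YY g h.symm (sc ε₁ C₁ Λ₁) Dm e p u r₀ ∉ A) :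
    (Bd g h e Fm Dm (sc ε₁ C₁ Λ₁) Z A).Nonempty := by
  have hfc := H.lm.YY_cont hu hu0
  set f : ℝ → X := fun r => YY g h.symm (sc ε₁ C₁ Λ₁) Dm e p u r with hf
  have hcomp : IsCompact (Icc 0 r₀ ∩ f ⁻¹' A) := isCompact_Icc.inter_right (hA.cl.preimage hfc)
  have hf0 : f 0 = p := H.lm.YY_zero hu hu0
  obtain ⟨r₁, ⟨⟨hr₁0, hr₁1⟩, hr₁A⟩, hmax⟩ := hcomp.exists_isGreatest
    ⟨0, ⟨le_rfl, hr₀.le⟩, by show f 0 ∈ A; rw [hf0]; exact hpA⟩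
  have hr₁A' : f r₁ ∈ A := hr₁A
  have hr₁lt : r₁ < r₀ := by
    rcases hr₁1.lt_or_eq with h | h
    · exact h
    · exfalso; rw [h] at hr₁A'; exact hno hr₁A'
  have hfree : ∀ r, r₁ < r → r ≤ r₀ → f r ∉ A := fun r h1 h2 h3 =>
    absurd (hmax ⟨⟨hr₁0.trans h1.le, h2⟩, h3⟩) (not_le.mpr h1)
  set x₁ := f r₁ with hx₁
  obtain ⟨hLW1, hT1⟩ := H.lm.YY_spec p hu hu0 r₁
  have hx₁Z : x₁ ∈ Z := H.satm p hpZ _ hLW1
  obtain ⟨v, hv, hv1⟩ := unit_exists (H.lm.line x₁)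
  have key : ∃ v ∈ Fm x₁, ‖v‖ = 1 ∧ ∀ ρ, 0 < ρ →
      r₁ < TT g Dm e p u (YY g h.symm (sc ε₁ C₁ Λ₁) Dm e x₁ v ρ) := by
    have h0 : TT g Dm e p u (YY g h.symm (sc ε₁ C₁ Λ₁) Dm e x₁ v 0) = r₁ := by
      rw [H.lm.YY_zero hv (unit_ne hv1)]
      exact hT1
    rcases H.lm.bc_mono hLW1 hu hu0 hv (unit_ne hv1) with hm | hm
    · refine ⟨v, hv, hv1, fun ρ hρ => ?_⟩
      have := hm hρ
      simp only at this
      rwa [h0] at this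
    · refine ⟨-v, (Fm x₁).neg_mem hv, by rw [norm_neg]; exact hv1, fun ρ hρ => ?_⟩
      have h1 : YY g h.symm (sc ε₁ C₁ Λ₁) Dm e x₁ (-v) ρ =
          YY g h.symm (sc ε₁ C₁ Λ₁) Dm e x₁ v (-ρ) := by
        have := H.lm.YY_smul hv (unit_ne hv1) (s := -1) (by norm_num) ρ
        rwa [neg_one_smul, neg_one_mul] at this
      rw [h1]
      have := hm (show -ρ < 0 by linarith)
      simp only at this
      rwa [h0] at this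
  obtain ⟨v, hv, hv1, hpos⟩ := key
  have hbc := H.lm.bc_cont hLW1 hu hu0 hv (unit_ne hv1)
  have h0 : TT g Dm e p u (YY g h.symm (sc ε₁ C₁ Λ₁) Dm e x₁ v 0) = r₁ := by
    rw [H.lm.YY_zero hv (unit_ne hv1)]
    exact hT1
  have hev : ∀ᶠ ρ in 𝓝 (0 : ℝ), TT g Dm e p u (YY g h.symm (sc ε₁ C₁ Λ₁) Dm e x₁ v ρ) < r₀ := by
    have h9 := hbc.tendsto 0
    rw [h0] at h9
    exact h9.eventually (gt_mem_nhds hr₁lt)
  obtain ⟨δ, hδ, hδ2⟩ := Metric.eventually_nhds_iff.mp hev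
  have hgap : (x₁, v) ∈ Gap g h e Fm Dm (sc ε₁ C₁ Λ₁) Z A δ := by
    refine ⟨hr₁A', hx₁Z, hv, hv1, fun ρ h1 h2 hmem => ?_⟩
    simp only at hmem
    have h3 : TT g Dm e p u (YY g h.symm (sc ε₁ C₁ Λ₁) Dm e x₁ v ρ) < r₀ := hδ2 (by
      rw [Real.dist_eq, sub_zero, abs_of_pos h1]; exact h2)
    have h4 := hpos ρ h1
    have h5 := H.lm.YY_eq hu hu0 (H.lm.W_trans hLW1 (H.lm.YY_spec x₁ hv (unit_ne hv1) ρ).1) rfl
    refine hfree _ h4 h3.le ?_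
    show YY g h.symm (sc ε₁ C₁ Λ₁) Dm e p u _ ∈ A
    rw [h5]
    exact hmem
  have hback : ∀ n : ℕ, ∃ w, (g.symm^[n] x₁, w) ∈ Gap g h e Fm Dm (sc ε₁ C₁ Λ₁) Z A (2 ^ n * δ) := by
    intro n
    induction n with
    | zero => exact ⟨v, by simpa using hgap⟩
    | succ n ih =>
      obtain ⟨w, hw⟩ := ih
      obtain ⟨w', hw'⟩ := H.gap_back hA hw
      refine ⟨w', ?_⟩
      rw [Function.iterate_succ_apply', pow_succ, mul_comm (2 ^ n : ℝ) 2, mul_assoc]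
      exact hw'
  choose w hw using hback
  obtain ⟨⟨y, u'⟩, -, φ, hφ, hlim⟩ := ((isCompact_univ (X := X)).prod
    (isCompact_sphere (0 : E) 1)).tendsto_subseq (x := fun k => (g.symm^[k] x₁, w k))
    (fun k => ⟨mem_univ _, by rw [mem_sphere_zero_iff_norm]; exact (hw k).2.2.2.1⟩)
  refine ⟨(y, u'), bd_iff.mpr fun R _ => ?_⟩
  refine (H.gap_closed hA R).mem_of_tendsto hlim ?_
  have ht : Tendsto (fun n : ℕ => (2 : ℝ) ^ n * δ) atTop atTop :=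
    (tendsto_pow_atTop_atTop_of_one_lt (by norm_num)).atTop_mul_const hδ
  filter_upwards [(ht.comp hφ.tendsto_atTop).eventually_ge_atTop R] with k hk
  exact gap_mono hk (hw (φ k))

end SD

end Pool.Agent.Y330.E
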