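import Pool.Agent.Y330.E.L3

set_option autoImplicit false

open Filter Topology Set Metric
open scoped InnerProductSpace

namespace Pool.Agent.Y330.E

open Pool.Agent.H789R2.AN Pool.Agent.Y330.G Pool.Agent.Y330.F

open LF (sc)

variable {X : Type*} [MetricSpace X] {E : Type*} [NormedAddCommGroup E] [InnerProductSpace ℝ E]

namespace SD

variable {g h : X ≃ₜ X} {e : X → E} {Fm Fp : X → Submodule ℝ E} {Dm Dp : X → E →ₗ[ℝ] E}
  {ε₁ C₁ Λ₁ ε₂ C₂ Λ₂ : ℝ} {Z A : Set X}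

/-- close free half leaves start on the same local leaf of `Fp` -/
theorem bd_close [CompactSpace X] [FiniteDimensional ℝ E]
    (H : SD g h e Fm Fp Dm Dp ε₁ C₁ Λ₁ ε₂ C₂ Λ₂ Z) (hA : AD g A) {ε : ℝ} (hε : 0 < ε) :
    ∃ δ > 0, ∀ q ∈ Bd g h e Fm Dm (sc ε₁ C₁ Λ₁) Z A, ∀ q' ∈ Bd g h e Fm Dm (sc ε₁ C₁ Λ₁) Z A,
      dist q.1 q'.1 < δ → ‖q.2 - q'.2‖ < δ → R2 g.symm h ε q.1 q'.1 := by
  have hε₁ := H.lm.pos
  have hε₂ := H.lp.pos
  have hsc₁ := H.lm.sc_pos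
  obtain ⟨ρ, hρ, hρε, hord⟩ := H.order (ε := min ε₁ ε₂) (lt_min hε₁ hε₂)
  obtain ⟨δL, hδL, hline⟩ := line_close H.lm.line H.lm.clF (η := 1 / 4) (by norm_num)
  set ε' := min (min ρ ε) (min (sc ε₁ C₁ Λ₁) (min (δL / 2) ε₂)) with hε'
  have hε'0 : 0 < ε' := lt_min (lt_min hρ hε) (lt_min hsc₁ (lt_min (half_pos hδL) hε₂))
  have a1 : ε' ≤ ρ := (min_le_left _ _).trans (min_le_left _ _)
  have a2 : ε' ≤ ε := (min_le_left _ _).trans (min_le_right _ _)
  have a3 : ε' ≤ sc ε₁ C₁ Λ₁ := (min_le_right _ _).trans (min_le_left _ _)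
  have a4 : ε' ≤ δL / 2 := (min_le_right _ _).trans ((min_le_right _ _).trans (min_le_left _ _))
  have a5 : ε' ≤ ε₂ := (min_le_right _ _).trans ((min_le_right _ _).trans (min_le_right _ _))
  obtain ⟨δ, hδ, hbr⟩ := H.brk1 hε'0
  refine ⟨min δ (1 / 4), lt_min hδ (by norm_num), ?_⟩
  rintro ⟨y, u⟩ ⟨h1, h2, h3, h4, h5⟩ ⟨y', u'⟩ ⟨h1', h2', h3', h4', h5'⟩ hd hd'
  simp only at h1 h2 h3 h4 h5 h1' h2' h3' h4' h5' hd hd' ⊢
  obtain ⟨w, hwZ, hw1, hw2⟩ := hbr y h2 y' h2' (hd.trans_le (min_le_left _ _))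
  have hwA : w ∈ A := H.satA hA a5 hw2 h1'
  by_cases hyw : y = w
  · rw [hyw]
    exact (hw2.symm).mono a2
  exfalso
  have hLW : LW g h.symm (sc ε₁ C₁ Λ₁) y w := H.lm.W_of (hw1.mono (a3.trans H.lm.sc_le))
  have ht0 := H.lm.TT_ne hLW hyw h3 (unit_ne h4)
  have htneg : TT g Dm e y u w < 0 := by
    rcases lt_or_gt_of_ne ht0 with h6 | h6
    · exact h6
    · exfalso
      refine h5 _ h6 ?_
      rw [H.lm.YY_eq h3 (unit_ne h4) hLW rfl]
      exact hwA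
  have hdw : dist y w ≤ ε' := hw1.1 0
  obtain ⟨σ, hσ, hσ1, hσu⟩ := hline y w (by linarith) u h3 h4
  have hls := H.lm.local_sign (hw1.mono a3) hyw h3 h4 hσ hσ1 (by linarith)
  have hpos : 0 < TT g Dm e w σ y := by
    by_contra hcon
    push Not at hcon
    nlinarith
  obtain ⟨b, hbZ, hb1, hb2, hb3⟩ := hord w hwZ y' y (hw2.symm.mono a1) (hw1.symm.mono a1)
    (fun h => hyw h.symm) σ hσ hσ1 u' h3' h4' (by
      have e1 : u' - σ = (u - σ) - (u - u') := by abel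
      rw [e1]
      have := norm_sub_le (u - σ) (u - u')
      have : ‖u - u'‖ < 1 / 4 := hd'.trans_le (min_le_right _ _)
      linarith)
  have hbA : b ∈ A := H.satA hA (min_le_right _ _) hb2 h1
  have hLW' : LW g h.symm (sc ε₁ C₁ Λ₁) y' b := H.lm.W_of (hb1.mono (min_le_left _ _))
  have hpos' : 0 < TT g Dm e y' u' b := by
    by_contra hcon
    push Not at hcon
    nlinarith
  refine h5' _ hpos' ?_
  rw [H.lm.YY_eq h3' (unit_ne h4') hLW' rfl]
  exact hbA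

/-- half leaves starting near a free half leaf, on the same side, are free near their origin -/
theorem bd_near [CompactSpace X] [FiniteDimensional ℝ E]
    (H : SD g h e Fm Fp Dm Dp ε₁ C₁ Λ₁ ε₂ C₂ Λ₂ Z) (hA : AD g A) :
    ∃ δ > 0, ∀ q ∈ Bd g h e Fm Dm (sc ε₁ C₁ Λ₁) Z A, ∀ x ∈ Z, R2 g.symm h δ x q.1 →
      ∀ v ∈ Fm x, ‖v‖ = 1 → ‖q.2 - v‖ ≤ 1 / 2 → ∀ s, 0 < s → s < δ →
        YY g h.symm (sc ε₁ C₁ Λ₁) Dm e x v s ∉ A := by
  have hε₁ := H.lm.pos
  have hε₂ := H.lp.pos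
  obtain ⟨ρ, hρ, hρε, hord⟩ := H.order (ε := min ε₁ ε₂) (lt_min hε₁ hε₂)
  obtain ⟨κ, hκ, hnear⟩ := H.lm.near_pt
  refine ⟨min ρ (min κ (ρ / 4)), lt_min hρ (lt_min hκ (by linarith)), ?_⟩
  rintro ⟨y, u⟩ ⟨h1, h2, h3, h4, h5⟩ x hx hxy v hv hv1 huv s hs0 hs1 hmem
  simp only at h1 h2 h3 h4 h5 hxy huv
  have b1 : s < κ := hs1.trans_le ((min_le_right _ _).trans (min_le_left _ _))
  have b2 : s < ρ / 4 := hs1.trans_le ((min_le_right _ _).trans (min_le_right _ _))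
  obtain ⟨-, h6⟩ := hnear x v s hv (unit_ne hv1) (by rw [hv1, mul_one, abs_of_pos hs0]; exact b1.le)
  rw [hv1, mul_one, abs_of_pos hs0] at h6
  obtain ⟨h7, h8⟩ := H.lm.YY_spec x hv (unit_ne hv1) s
  set w := YY g h.symm (sc ε₁ C₁ Λ₁) Dm e x v s with hw
  have hne : x ≠ w := by
    intro heq
    rw [← heq, H.lm.TT_self x hv (unit_ne hv1)] at h8
    linarith
  obtain ⟨b, hbZ, hb1, hb2, hb3⟩ := hord x hx y w (hxy.mono (min_le_left _ _))
    (h6.mono (by linarith)) hne v hv hv1 u h3 h4 huv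
  have hbA : b ∈ A := H.satA hA (min_le_right _ _) hb2 hmem
  have hLW' : LW g h.symm (sc ε₁ C₁ Λ₁) y b := H.lm.W_of (hb1.mono (min_le_left _ _))
  rw [h8] at hb3
  have hpos' : 0 < TT g Dm e y u b := by
    by_contra hcon
    push Not at hcon
    nlinarith
  refine h5 _ hpos' ?_
  rw [H.lm.YY_eq h3 (unit_ne h4) hLW' rfl]
  exact hbA

/-- pigeonhole -/
theorem pig [CompactSpace X] [FiniteDimensional ℝ E] (q : ℕ → X × E) (hq : ∀ n, ‖(q n).2‖ = 1)
    {δ : ℝ} (hδ : 0 < δ) (I : ℕ) : ∃ i ≥ I, ∃ j > i, dist (q i).1 (q j).1 < δ ∧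
      ‖(q i).2 - (q j).2‖ < δ := by
  obtain ⟨⟨y, u⟩, -, φ, hφ, hlim⟩ := ((isCompact_univ (X := X)).prod
    (isCompact_sphere (0 : E) 1)).tendsto_subseq (x := q)
    (fun k => ⟨mem_univ _, by rw [mem_sphere_zero_iff_norm]; exact hq k⟩)
  obtain ⟨K, hK⟩ := Metric.tendsto_atTop.mp hlim (δ / 2) (half_pos hδ)
  have h1 := hK (max K I) (le_max_left _ _)
  have h2 := hK (max K I + 1) ((le_max_left _ _).trans (Nat.le_succ _))
  have h3 : dist (q (φ (max K I))) (q (φ (max K I + 1))) < δ := by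
    have := dist_triangle_right (q (φ (max K I))) (q (φ (max K I + 1))) (y, u)
    simp only [Function.comp_apply] at h1 h2
    linarith
  rw [Prod.dist_eq, max_lt_iff] at h3
  refine ⟨φ (max K I), (le_max_right _ _).trans (hφ.id_le _), φ (max K I + 1),
    hφ (Nat.lt_succ_self _), h3.1, ?_⟩
  rw [← dist_eq_norm]
  exact h3.2

theorem iterS (g : X ≃ₜ X) (n : ℕ) (x : X) : g.symm^[n] (g^[n] x) = x := iterL g n x

theorem iterS' (g : X ≃ₜ X) (n : ℕ) (x : X) : g^[n] (g.symm^[n] x) = x := iterL g.symm n x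

/-- periodic free half leaves -/
theorem bd_per [CompactSpace X] [FiniteDimensional ℝ E]
    (H : SD g h e Fm Fp Dm Dp ε₁ C₁ Λ₁ ε₂ C₂ Λ₂ Z) (hA : AD g A)
    (hne : (Bd g h e Fm Dm (sc ε₁ C₁ Λ₁) Z A).Nonempty) :
    ∃ q ∈ Bd g h e Fm Dm (sc ε₁ C₁ Λ₁) Z A, ∃ k : ℕ, 1 ≤ k ∧ g^[k] q.1 = q.1 := by
  obtain ⟨q₀, hq₀⟩ := hne
  have h1 := fun n => (H.bd_iter hA hq₀ n).1
  choose u hu using h1
  obtain ⟨δ, hδ, hcl⟩ := H.bd_close hA H.lp.pos
  obtain ⟨i, -, j, hij, hd1, hd2⟩ := pig (fun n => (g^[n] q₀.1, u n))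
    (fun n => (hu n).2.2.2.1) hδ 0
  have hR := hcl _ (hu i) _ (hu j) hd1 hd2
  simp only at hR
  set x := g^[i] q₀.1 with hx
  set k := j - i with hk
  have hk1 : 1 ≤ k := by omega
  have hgk : g^[j] q₀.1 = g^[k] x := by
    rw [hx, ← Function.iterate_add_apply]
    congr 1
    omega
  rw [hgk] at hR
  -- the sequence
  have hstep : ∀ l : ℕ, dist (g.symm^[k * l] x) (g.symm^[k * (l + 1)] x) ≤
      dist x (g^[k] x) * (1 / 2) ^ l := by
    intro l
    have h2 := H.lp.ctr _ _ hR.1 (k * (l + 1))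
    have h3 : g.symm^[k * (l + 1)] (g^[k] x) = g.symm^[k * l] x := by
      rw [Nat.mul_succ, Function.iterate_add_apply, iterS]
    rw [h3, dist_comm] at h2
    have h4 : (1 / 2 : ℝ) ^ (k * (l + 1)) ≤ (1 / 2) ^ l :=
      pow_le_pow_of_le_one (by norm_num) (by norm_num) (by nlinarith)
    calc _ ≤ _ := h2
      _ ≤ (1 / 2) ^ l * dist x (g^[k] x) := mul_le_mul_of_nonneg_right h4 dist_nonneg
      _ = _ := mul_comm _ _
  have hcau : CauchySeq fun l : ℕ => g.symm^[k * l] x :=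
    cauchySeq_of_le_geometric (1 / 2) (dist x (g^[k] x)) (by norm_num) hstep
  obtain ⟨y, hy⟩ := cauchySeq_tendsto_of_complete hcau
  have hyk : g^[k] y = y := by
    have h2 := ((g.continuous.iterate k).tendsto y).comp
      (hy.comp (tendsto_add_atTop_nat 1))
    refine tendsto_nhds_unique h2 (hy.congr fun l => ?_)
    simp only [Function.comp_apply]
    rw [Nat.mul_succ, Nat.add_comm, Function.iterate_add_apply, iterS']
  have h3 := fun l : ℕ => (H.bd_iter hA (hu i) (k * l)).2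
  choose v hv using h3
  obtain ⟨w, hw, φ, hφ, hlim⟩ := (isCompact_sphere (0 : E) 1).tendsto_subseq (x := v)
    (fun k => by rw [mem_sphere_zero_iff_norm]; exact (hv k).2.2.2.1)
  refine ⟨(y, w), (H.bd_closed hA).mem_of_tendsto
    ((hy.comp hφ.tendsto_atTop).prodMk_nhds hlim) (Eventually.of_forall fun l => hv (φ l)),
    k, hk1, hyk⟩

/-- **Finite gaps**: on the `Fp`-leaf of a periodic point, the other points carry no free half
leaves. -/
theorem fin_gap [CompactSpace X] [FiniteDimensional ℝ E]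
    (H : SD g h e Fm Fp Dm Dp ε₁ C₁ Λ₁ ε₂ C₂ Λ₂ Z) (hA : AD g A) {y : X} {k : ℕ} (hk : 1 ≤ k)
    (hy : g^[k] y = y) {x : X} (hyx : LW g.symm h (sc ε₂ C₂ Λ₂) y x) (hne : y ≠ x) {v : E} :
    (x, v) ∉ Bd g h e Fm Dm (sc ε₁ C₁ Λ₁) Z A := by
  intro hB
  have hys : g.symm^[k] y = y := by
    conv_lhs => rw [← hy]
    exact iterS g k y
  obtain ⟨n, hn, hn1⟩ := unit_exists (H.lp.line y)
  have hn0 := unit_ne hn1
  -- the multiplier
  have hlam : ∃ lam : ℝ, lam ≠ 0 ∧ |lam| ≤ 1 / 2 ∧ vec g.symm Dp k y n = lam • n := by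
    have h1 := H.lp.vec_mem k y hn
    rw [hys] at h1
    obtain ⟨w, hw, hw0, hl⟩ := H.lp.line y
    obtain ⟨r, hr⟩ := hl _ h1
    obtain ⟨s, hs⟩ := hl n hn
    have hs0 : s ≠ 0 := by
      rintro rfl
      exact hn0 (by rw [hs, zero_smul])
    have h2 : vec g.symm Dp k y n = (r / s) • n := by
      rw [hr]
      conv_rhs => rw [hs]
      rw [smul_smul, div_mul_cancel₀ _ hs0]
    refine ⟨r / s, ?_, ?_, h2⟩
    · intro h3
      rw [h3, zero_smul] at h2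
      exact H.lp.vec_ne k y hn hn0 h2
    · have h3 := H.lp.vec_le k y hn
      rw [h2, norm_smul, hn1, mul_one, mul_one] at h3
      refine h3.trans ?_
      calc (1 / 2 : ℝ) ^ k ≤ (1 / 2) ^ 1 := pow_le_pow_of_le_one (by norm_num) (by norm_num) hk
        _ = 1 / 2 := pow_one _
  obtain ⟨lam, hlam0, hlam1, hlam⟩ := hlam
  set κ := lam ^ 2 with hκ
  have hκ0 : 0 < κ := by positivity
  have hκ1 : κ ≤ 1 / 4 := by
    rw [hκ, ← sq_abs]
    have := pow_le_pow_left₀ (abs_nonneg lam) hlam1 2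
    norm_num at this ⊢
    linarith
  have hit : ∀ j : ℕ, g.symm^[k * j] y = y ∧ vec g.symm Dp (k * j) y n = lam ^ j • n := by
    intro j
    induction j with
    | zero => exact ⟨rfl, by rw [Nat.mul_zero, vec_zero, pow_zero, one_smul]⟩
    | succ j ih =>
      constructor
      · rw [Nat.mul_succ, Function.iterate_add_apply, hys, ih.1]
      · rw [Nat.mul_succ, vec_add, hys, hlam, vec_smul, ih.2, smul_smul, pow_succ, mul_comm]
  have hit2 : ∀ j : ℕ, g.symm^[2 * k * j] y = y ∧ vec g.symm Dp (2 * k * j) y n = κ ^ j • n := by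
    intro j
    have h1 := hit (2 * j)
    have h2 : k * (2 * j) = 2 * k * j := by ring
    rw [h2] at h1
    refine ⟨h1.1, ?_⟩
    rw [h1.2, hκ, ← pow_mul]
  set T := TT g.symm Dp e y n x with hT
  have hT0 : T ≠ 0 := H.lp.TT_ne hyx hne hn hn0
  -- the forward orbit of `x`
  have hxj : ∀ j : ℕ, LW g.symm h (sc ε₂ C₂ Λ₂) y (g^[2 * k * j] x) ∧
      TT g.symm Dp e y n (g^[2 * k * j] x) = T / κ ^ j := by
    intro j
    have h1 : LW g.symm h (sc ε₂ C₂ Λ₂) y (g^[2 * k * j] x) := by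
      apply H.lp.W_iter (2 * k * j)
      rw [(hit2 j).1, iterS]
      exact hyx
    refine ⟨h1, ?_⟩
    have h2 := H.lp.TT_shift h1 hn hn0 (2 * k * j)
    rw [(hit2 j).1, (hit2 j).2, iterS, H.lp.TT_smul hyx hn hn0] at h2
    exact h2.symm
  obtain ⟨ν, hν, hν1⟩ := unit_exists (H.lp.line x)
  have hν0 := unit_ne hν1
  have hLWxy := H.lp.W_symm hyx
  set hb : ℝ → ℝ := fun r => TT g.symm Dp e x ν (YY g.symm h (sc ε₂ C₂ Λ₂) Dp e y n r) with hhb
  have hbT : hb T = 0 := by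
    show TT g.symm Dp e x ν (YY g.symm h (sc ε₂ C₂ Λ₂) Dp e y n T) = 0
    rw [H.lp.YY_eq hn hn0 hyx rfl]
    exact H.lp.TT_self x hν hν0
  have hbj : ∀ j : ℕ, hb (T / κ ^ j) = TT g.symm Dp e x ν (g^[2 * k * j] x) := by
    intro j
    show TT g.symm Dp e x ν (YY g.symm h (sc ε₂ C₂ Λ₂) Dp e y n (T / κ ^ j)) = _
    rw [H.lp.YY_eq hn hn0 (hxj j).1 (hxj j).2]
  have hmono := H.lp.bc_mono hLWxy hν hν0 hn hn0
  -- lower bound
  have hpowκ : ∀ j : ℕ, 1 ≤ j → κ ^ j ≤ κ := fun j hj => by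
    calc κ ^ j ≤ κ ^ 1 := pow_le_pow_of_le_one hκ0.le (by linarith) hj
      _ = κ := pow_one _
  have hord : ∀ j : ℕ, 1 ≤ j → (0 < T → T < T / κ ∧ T / κ ≤ T / κ ^ j) ∧
      (T < 0 → T / κ < T ∧ T / κ ^ j ≤ T / κ) := by
    intro j hj
    have hp := hpowκ j hj
    have hpj : 0 < κ ^ j := by positivity
    constructor
    · intro hTp
      refine ⟨by rw [lt_div_iff₀ hκ0]; nlinarith, ?_⟩
      exact div_le_div_of_nonneg_left hTp.le hpj hp
    · intro hTn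
      refine ⟨by rw [div_lt_iff₀ hκ0]; nlinarith, ?_⟩
      have h6 := div_le_div_of_nonneg_left (show 0 ≤ -T by linarith) hpj hp
      rw [neg_div, neg_div] at h6
      linarith
  have hc₀ : hb (T / κ) ≠ 0 := by
    intro h1
    have h2 : hb (T / κ) = hb T := by rw [h1, hbT]
    have h3 := H.lp.bc_inj hLWxy hν hν0 hn hn0 h2
    have := hord 1 le_rfl
    rcases lt_or_gt_of_ne hT0 with h4 | h4
    · exact absurd h3 (this.2 h4).1.ne
    · exact absurd h3 (this.1 h4).1.ne'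
  have hlow : ∀ j : ℕ, 1 ≤ j → |hb (T / κ)| ≤ |hb (T / κ ^ j)| := by
    intro j hj
    have h1 := hord j hj
    rcases lt_or_gt_of_ne hT0 with h4 | h4
    · obtain ⟨h5, h6⟩ := h1.2 h4
      rcases hmono with hm | hm
      · have h7 : hb (T / κ) < hb T := hm h5
        have h8 : hb (T / κ ^ j) ≤ hb (T / κ) := hm.monotone h6
        rw [hbT] at h7
        rw [abs_of_neg h7, abs_of_neg (h8.trans_lt h7)]
        linarith
      · have h7 : hb T < hb (T / κ) := hm h5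
        have h8 : hb (T / κ) ≤ hb (T / κ ^ j) := hm.antitone h6
        rw [hbT] at h7
        rw [abs_of_pos h7, abs_of_pos (h7.trans_le h8)]
        exact h8
    · obtain ⟨h5, h6⟩ := h1.1 h4
      rcases hmono with hm | hm
      · have h7 : hb T < hb (T / κ) := hm h5
        have h8 : hb (T / κ) ≤ hb (T / κ ^ j) := hm.monotone h6
        rw [hbT] at h7
        rw [abs_of_pos h7, abs_of_pos (h7.trans_le h8)]
        exact h8
      · have h7 : hb (T / κ) < hb T := hm h5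
        have h8 : hb (T / κ ^ j) ≤ hb (T / κ) := hm.antitone h6
        rw [hbT] at h7
        rw [abs_of_neg h7, abs_of_neg (h8.trans_lt h7)]
        linarith
  -- contradiction
  have h1 := fun j : ℕ => (H.bd_iter hA hB (2 * k * j)).1
  choose w hw using h1
  obtain ⟨δ, hδ, hcl⟩ := H.bd_close hA H.lp.sc_pos
  have hpos : 0 < |hb (T / κ)| := abs_pos.mpr hc₀
  obtain ⟨I, hI⟩ := pw (c := sc ε₂ C₂ Λ₂) (show (0 : ℝ) < |hb (T / κ)| / 4 by linarith)
  obtain ⟨i, hi, j, hij, hd1, hd2⟩ := pig (fun n => (g^[2 * k * n] x, w n))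
    (fun n => (hw n).2.2.2.1) hδ I
  have hR := hcl _ (hw i) _ (hw j) hd1 hd2
  simp only at hR
  set l := j - i with hl
  have hjl : g^[2 * k * j] x = g^[2 * k * i] (g^[2 * k * l] x) := by
    rw [← Function.iterate_add_apply, ← mul_add]
    congr 2
    omega
  have h2 := H.lp.jt _ _ (hR.mono H.lp.sc_le) (2 * k * i) 0
  have hj2 : g.symm^[2 * k * i] (g^[2 * k * j] x) = g^[2 * k * l] x := by rw [hjl, iterS]
  simp only [Function.iterate_zero, id_eq, add_zero] at h2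
  rw [iterS, hj2] at h2
  have h3 : (1 / 2 : ℝ) ^ (2 * k * i) * dist (g^[2 * k * i] x) (g^[2 * k * j] x) ≤
      (1 / 2) ^ I * sc ε₂ C₂ Λ₂ := by
    refine mul_le_mul ?_ (hR.1 0) dist_nonneg (by positivity)
    apply pow_le_pow_of_le_one (by norm_num) (by norm_num)
    nlinarith
  have h4 : (1 / 2 : ℝ) ^ (2 * k * i) * dist (g^[2 * k * i] x) (g^[2 * k * j] x) ≤
      sc ε₂ C₂ Λ₂ := by
    have h5 : (1 / 2 : ℝ) ^ (2 * k * i) ≤ 1 := half_pow_le _
    have h6 : dist (g^[2 * k * i] x) (g^[2 * k * j] x) ≤ sc ε₂ C₂ Λ₂ := hR.1 0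
    have h7 : (0 : ℝ) ≤ dist (g^[2 * k * i] x) (g^[2 * k * j] x) := dist_nonneg
    nlinarith
  have h5 := (H.lp.bounds (h2.mono h4) hν hν0).1
  rw [hν1, mul_one, ← hbj l] at h5
  have h6 : dist x (g^[2 * k * l] x) ≤ (1 / 2) ^ I * sc ε₂ C₂ Λ₂ := (h2.1 0).trans h3
  have h7 := hlow l (by omega)
  linarith

end SD

end Pool.Agent.Y330.E
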