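import Pool.Agent.Y330.E.D4
import Pool.Agent.Y330.E.A4

set_option autoImplicit false

open Filter Topology Set Metric
open scoped InnerProductSpace

namespace Pool.Agent.Y330.E

open Pool.Agent.H789R2.AN Pool.Agent.Y330.G Pool.Agent.H721R2 Pool.Agent.Y330.F

open LF (sc)

variable {X : Type*} [MetricSpace X] {E : Type*} [NormedAddCommGroup E] [InnerProductSpace ℝ E]
  {G : Type*} [AddCommGroup G]

/-- The first hitting time of a closed set along the vertical lines. -/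
theorem hit_exists {X : Type*} [TopologicalSpace X] {φ : ℝ → X} (hφ : Continuous φ) {K : Set X}
    (hK : IsClosed K) {δ : ℝ} (hδ : 0 < δ) (hfree : ∀ s, 0 < s → s < δ → φ s ∉ K)
    (hex : ∃ s, 0 < s ∧ φ s ∈ K) : ∃ ρ, δ ≤ ρ ∧ φ ρ ∈ K ∧ ∀ s, 0 < s → s < ρ → φ s ∉ K := by
  obtain ⟨s₀, hs₀, hm₀⟩ := hex
  have hδs : δ ≤ s₀ := by
    by_contra h
    exact hfree s₀ hs₀ (not_le.mp h) hm₀
  have hcomp : IsCompact (Icc δ s₀ ∩ φ ⁻¹' K) := isCompact_Icc.inter_right (hK.preimage hφ)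
  obtain ⟨ρ, ⟨⟨h1, h2⟩, h3⟩, hmin⟩ := hcomp.exists_isLeast ⟨s₀, ⟨hδs, le_rfl⟩, hm₀⟩
  refine ⟨ρ, h1, h3, fun s hs hsρ hm => ?_⟩
  rcases lt_or_ge s δ with h4 | h4
  · exact hfree s hs h4 hm
  · exact absurd (hmin ⟨⟨h4, by linarith⟩, hm⟩) (not_le.mpr hsρ)

namespace PQ

variable {act : G → X ≃ₜ X} {e : X → E} {T : X → Submodule ℝ E} {B : G → X → E →ₗ[ℝ] E}
  {S S' : HypSys X E} {a a' : G} {Fm Fp : X → Submodule ℝ E} {p : X} {N : ℕ} {τ : G →+ ℝ}
  {c : ℝ} {u n : E} {ε₀ C Λ εp Cp Λp : ℝ} {Nn : ℝ → E}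

/-- **No half plane** bounded below by its axis and above by a saturated set. -/
theorem region [CompactSpace X] [FiniteDimensional ℝ E]
    (P : PQ act e T B S S' a a' Fm Fp p N τ c u n)
    (L : LF (act a) (act a').symm e Fm (B a) ε₀ C Λ)
    (Lp : LF (act a).symm (act a') e Fp (B (-a)) εp Cp Λp) (hNc : Continuous Nn)
    (hN1 : ∀ t, Nn t ∈ Fp (zz act e B a a' (sc ε₀ C Λ) p u t)) (hN2 : ∀ t, Nn t ≠ 0)
    (hN3 : ∀ g t, B (N • g) (zz act e B a a' (sc ε₀ C Λ) p u t) (Nn t) = Nn (t + τ g))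
    {K : Set X} (hK : IsClosed K) (hKi : ∀ g x, act g x ∈ K ↔ x ∈ K)
    (hKs : ∀ x ∈ K, ∀ y, WS (act a) x y → y ∈ K) {δ : ℝ} (hδ : 0 < δ)
    (hfree : ∀ t s, 0 < s → s < δ →
      psi act e B a a' (sc εp Cp Λp) (zz act e B a a' (sc ε₀ C Λ) p u) Nn t s ∉ K)
    (hex : ∀ t, ∃ s, 0 < s ∧
      psi act e B a a' (sc εp Cp Λp) (zz act e B a a' (sc ε₀ C Λ) p u) Nn t s ∈ K) : False := by
  have hPD := P.exPD L Lp hNc hN1 hN2 hN3
  have hsh := P.psi_shift L Lp hN1 hN2 hN3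
  have hzc := P.zz_cont L
  set z := zz act e B a a' (sc ε₀ C Λ) p u with hz
  set ψ := psi act e B a a' (sc εp Cp Λp) z Nn with hψ
  have hvc : ∀ t, Continuous (ψ t) := fun t =>
    hPD.cont.comp (continuous_const.prodMk continuous_id)
  choose ρ hρδ hρK hρm using fun t => hit_exists (hvc t) hK hδ (hfree t) (hex t)
  have hρ0 : ∀ t, 0 < ρ t := fun t => hδ.trans_le (hρδ t)
  have hρle : ∀ t s, 0 < s → ψ t s ∈ K → ρ t ≤ s := by
    intro t s hs hm
    by_contra h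
    exact hρm t s hs (not_le.mp h) hm
  have hper : ∀ g t, ρ (t + τ g) = ρ t := by
    intro g t
    apply le_antisymm
    · apply hρle _ _ (hρ0 t)
      rw [← hsh g t, hKi]
      exact hρK t
    · apply hρle _ _ (hρ0 _)
      rw [← hKi (N • g), hsh g t]
      exact hρK _
  obtain ⟨εc, hεc, c1, c2, c3, c4⟩ := P.fd.ctr4
  have hρc : Continuous ρ := by
    rw [Metric.continuous_iff]
    intro t ε hε
    set ε' := min (ε / 2) (min (δ / 2) (min 1 εc)) with hε'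
    have hε'0 : 0 < ε' := lt_min (half_pos hε) (lt_min (half_pos hδ) (lt_min one_pos hεc))
    have e1 : ε' ≤ ε / 2 := min_le_left _ _
    have e2 : ε' ≤ δ / 2 := (min_le_right _ _).trans (min_le_left _ _)
    have e3 : ε' ≤ 1 := (min_le_right _ _).trans ((min_le_right _ _).trans (min_le_left _ _))
    have e4 : ε' ≤ εc := (min_le_right _ _).trans ((min_le_right _ _).trans (min_le_right _ _))
    set R := |t| + ρ t + 2 with hR
    have hρt := hρ0 t
    have habs := abs_nonneg t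
    obtain ⟨η, hη, hho⟩ := holo3 hPD hεc (fun x => P.fd.sa.comm a' a x) c1 c2 c3 c4
      P.fd.lprS P.fd.symm.lprS R hε'0
    have key : ∀ t₁ v, |t₁| ≤ R → ρ t₁ ≤ R → |v| ≤ η → ρ (t₁ + v) ≤ ρ t₁ + ε' := by
      intro t₁ v h1 h2 h3
      obtain ⟨s', hs', hsr⟩ := hho v h3 t₁ (ρ t₁) h1 (by rw [abs_of_pos (hρ0 t₁)]; exact h2)
      have h4 := abs_le.mp hs'
      have h5 := hρδ t₁
      have h6 : ψ (t₁ + v) s' ∈ K := hKs _ (hρK t₁) _ (c1.ws (hsr.mono e4))
      exact (hρle _ _ (by linarith) h6).trans (by linarith)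
    refine ⟨min η 1, lt_min hη one_pos, fun t' ht' => ?_⟩
    rw [Real.dist_eq] at ht' ⊢
    have h1 : |t' - t| ≤ η := ht'.le.trans (min_le_left _ _)
    have h2 : |t' - t| ≤ 1 := ht'.le.trans (min_le_right _ _)
    have h3 := key t (t' - t) (by linarith) (by linarith) h1
    rw [add_sub_cancel] at h3
    have h4 : |t'| ≤ |t| + |t' - t| := by
      have := abs_add_le t (t' - t)
      rwa [add_sub_cancel] at this
    have h5 := key t' (t - t') (by linarith) (by linarith) (by rw [abs_sub_comm]; exact h1)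
    rw [add_sub_cancel] at h5
    rw [abs_lt]
    constructor <;> linarith
  -- the rescaled section
  have hN1' : ∀ t, ρ t • Nn t ∈ Fp (z t) := fun t => (Fp _).smul_mem _ (hN1 t)
  have hN2' : ∀ t, ρ t • Nn t ≠ 0 := fun t => smul_ne_zero (hρ0 t).ne' (hN2 t)
  have hN3' : ∀ g t, B (N • g) (z t) (ρ t • Nn t) = ρ (t + τ g) • Nn (t + τ g) := fun g t => by
    rw [map_smul, hN3, hper]
  have hPD' := P.exPD (Nn := fun t => ρ t • Nn t) L Lp (hρc.smul hNc) hN1' hN2' hN3'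
  have hsm : ∀ t s, psi act e B a a' (sc εp Cp Λp) z (fun t => ρ t • Nn t) t s =
      ψ t (ρ t * s) := fun t s => Lp.YY_smul (hN1 t) (hN2 t) (hρ0 t).ne' s
  refine no_region hPD' (K := K) ⟨hKs, ?_, ?_⟩ hεc (fun x => P.fd.sa.comm a' a x) c1 c2 c3 c4
    P.fd.lprS P.fd.symm.lprS
  · intro t
    rw [hsm, mul_one]
    exact hρK t
  · intro t s hs0 hs1
    rw [hsm]
    apply hρm
    · exact mul_pos (hρ0 t) hs0
    · have := hρ0 t
      nlinarith

end PQ

end Pool.Agent.Y330.E
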